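import Pool.Agent.Lib.K5.BDefs
import Pool.Agent.Lib.K5.CntDefs
import Pool.Agent.Lib.K5.EDefs
import Pool.Agent.Lib.K5T.Defs

/-!
# K5F.Defs: real functions of the blocks and the networks

`Bc n`: coefficients of the exponential generating function `B(x)` of the blocks without a `K_5` minor (`B(x) = K5T.fr Bc x`);
`dr x`, `dy x y`: the generating function of the networks, without and with a weight `y` for the edges;
`T0r x z`: the rooted 3-connected graphs.
-/

set_option autoImplicit false

namespace K5F

open K5 Finset
open scoped ENNReal

/-- The coefficients of the exponential generating function of the blocks. -/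
noncomputable def Bc (n : ℕ) : ℝ := (bC (n - 1) : ℝ) / n.factorial

/-- The generating function of the networks, real. -/
noncomputable def dr (x : ℝ) : ℝ := (D (.ofReal x)).toReal

/-- The same with a weight `y` for every edge. -/
noncomputable def dyr (x y : ℝ) : ℝ := (Dy (.ofReal x) (.ofReal y)).toReal

/-- The rooted 3-connected graphs, real. -/
noncomputable def T0r (x z : ℝ) : ℝ := (T0 (.ofReal x) (.ofReal z)).toReal

end K5F
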