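import Pool.Agent.Lib.K5F.HSeg
import Pool.Agent.Lib.K5F.Defs
import Pool.Agent.Lib.K5T.Bridge

/-!
# K5F.Exact: the value `B'(R)` from a closed form of `B(x)` on a real segment

If `B(x) = F(x)` for `x < R` near `R`, `F' = G` and `G(x) → g0` for `x → R`, then `B'(R) = g0`.
-/

set_option autoImplicit false

namespace K5F

open Filter Topology K5T

theorem dS_Bc : dS Bc = bb := by
  funext n
  unfold dS Bc bb
  rw [Nat.factorial_succ, Nat.add_sub_cancel]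
  have h1 : (n.factorial : ℝ) ≠ 0 := by positivity
  have h2 : ((n : ℝ) + 1) ≠ 0 := by positivity
  push_cast
  field_simp

theorem exact_value {R : ℝ} {b : ℂ → ℂ} (H : Sg R Bc b)
    (hsum : Summable (fun n : ℕ => bb n * R ^ n)) {F G : ℝ → ℝ} {g0 : ℝ}
    (hF : ∀ᶠ x in 𝓝[<] R, fr Bc x = F x) (hd : ∀ᶠ x in 𝓝[<] R, HasDerivAt F (G x) x)
    (hG : Tendsto G (𝓝[<] R) (𝓝 g0)) : fr bb R = g0 := by
  have hbb : ∀ n, 0 ≤ bb n := fun n => by unfold bb; positivity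
  have h1 : Tendsto (fun x : ℝ => fr bb x) (𝓝[<] R) (𝓝 (fr bb R)) := by
    have h2 := (continuousOn_fr hbb hsum) R ⟨H.pos.le, le_rfl⟩
    refine h2.tendsto.mono_left ?_
    refine nhdsWithin_le_iff.2 ?_
    filter_upwards [HSegAux.ev_Ioo H.pos] with x hx using ⟨hx.1.le, hx.2.le⟩
  refine tendsto_nhds_unique h1 (hG.congr' ?_)
  obtain ⟨x1, hx1, hx1e⟩ := (mem_nhdsLT_iff_exists_Ioo_subset' H.pos).1 hF
  have h3 : ∀ᶠ x in 𝓝[<] R, x ∈ Set.Ioo x1 R := Ioo_mem_nhdsLT hx1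
  filter_upwards [h3, hd, HSegAux.ev_Ioo H.pos] with x hx hdx hx0
  have h4 : HasDerivAt (fr Bc) (fr (dS Bc) x) x := HSegAux.hasDerivAt_fr H hx0.1 hx0.2
  have h5 : fr Bc =ᶠ[𝓝 x] F := by
    filter_upwards [Ioo_mem_nhds hx.1 hx.2] with w hw using hx1e hw
  have h6 := (h4.congr_of_eventuallyEq h5.symm).unique hdx
  rw [dS_Bc] at h6
  exact h6.symm

end K5F
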