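import Pool.Agent.Lib.K5F.F4
import Pool.Agent.Lib.K5F.Exact
import Pool.Agent.Lib.K5T.Conn
import Pool.Agent.Lib.P512.Final

/-!
# K5F.Form: the final form of the asymptotics

From `Sg` for the networks and for the blocks and the closed form of `B'` at `R`: with `γ = exp(B'(R)) / R`,
`g_n ~ K n^(-7/2) γ^n n!` and `c_n ~ K' n^(-7/2) γ^n n!`.
-/

set_option autoImplicit false

namespace K5F

open K5 Filter Topology
open scoped ENNReal

/-- The asymptotic law for all graphs and for connected graphs without a `K_5` minor, with the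
growth constant `γ`. -/
structure Law (γ : ℝ) : Prop where
  pos : 0 < γ
  root : Tendsto (fun n : ℕ => ((P512.numG n : ℝ) / n.factorial) ^ (1 / (n : ℝ))) atTop (𝓝 γ)
  law : ∃ K K' : ℝ, 0 < K ∧ 0 < K' ∧
    Tendsto (fun n : ℕ => (P512.numG n : ℝ) /
      (K * (n : ℝ) ^ (-(7 / 2) : ℝ) * γ ^ n * n.factorial)) atTop (𝓝 1) ∧
    Tendsto (fun n : ℕ => (P512.numC n : ℝ) /
      (K' * (n : ℝ) ^ (-(7 / 2) : ℝ) * γ ^ n * n.factorial)) atTop (𝓝 1) ∧
    HasSum (fun n : ℕ => (P512.numG n : ℝ) / (γ ^ n * n.factorial)) (K / K')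

namespace FormAux

theorem ratio {a : ℕ → ℝ} {γ K : ℝ} (hγ : 0 < γ) (hK : 0 < K)
    (h : Tendsto (fun n : ℕ => a n / n.factorial * γ⁻¹ ^ n * (n : ℝ) ^ (7 / 2 : ℝ)) atTop (𝓝 K)) :
    Tendsto (fun n : ℕ => a n / (K * (n : ℝ) ^ (-(7 / 2) : ℝ) * γ ^ n * n.factorial)) atTop
      (𝓝 1) := by
  have h1 := h.div_const K
  rw [div_self hK.ne'] at h1
  refine h1.congr' ?_
  filter_upwards [eventually_ge_atTop 1] with n hn
  have hn0 : (0 : ℝ) < n := by exact_mod_cast hn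
  have h2 : (n : ℝ) ^ (-(7 / 2) : ℝ) = ((n : ℝ) ^ (7 / 2 : ℝ))⁻¹ := Real.rpow_neg hn0.le _
  have h3 : (0 : ℝ) < (n : ℝ) ^ (7 / 2 : ℝ) := Real.rpow_pos_of_pos hn0 _
  have h4 : (n.factorial : ℝ) ≠ 0 := by positivity
  rw [h2, inv_pow]
  field_simp

end FormAux

open FormAux

theorem form {R : ℝ} {ζ b : ℂ → ℂ} {z0 z2 z3 : ℂ} (hD : Sg R Dc ζ)
    (hz : K5T.T3 ζ z0 z2 z3) (hz3 : z3 ≠ 0) (hB : Sg R Bn b)
    (kap : ∑' n : ℕ, (n : ℝ) * bt n * R ^ n < 1) {F G : ℝ → ℝ} {g0 : ℝ}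
    (hF : ∀ᶠ x in 𝓝[<] R, K5T.fr Bc x = F x) (hd : ∀ᶠ x in 𝓝[<] R, HasDerivAt F (G x) x)
    (hG : Tendsto G (𝓝[<] R) (𝓝 g0)) : Law (Real.exp g0 / R) := by
  obtain ⟨β, a0, a2, a3, hT, ha3, hs, -, -, ha2, hloc⟩ := loc_Bn hD hz hz3 hB
  have hR := hD.pos
  have hfin := bE_fin hR hs
  have hk : 0 < 1 + a2 := by
    rw [ha2]
    linarith
  have hval : K5T.fr K5T.bb R = g0 := by
    refine exact_value (b := b) ?_ hs hF hd hG
    rw [← Bn_eq_Bc]
    exact hB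
  obtain ⟨K, K', hK, hK', hT1, hT2, hsum, hKK⟩ := K5T.asymp_both hR hfin hloc hT hk ha3
  have hγ0 : 0 < Real.exp g0 / R := by positivity
  have hinv : R * Real.exp (-K5T.fr K5T.bb R) = (Real.exp g0 / R)⁻¹ := by
    rw [hval, Real.exp_neg]
    field_simp
  rw [hinv] at hT1 hT2 hsum hKK
  obtain ⟨γ, -, -, hγ, -, -⟩ := P512.main
  have hγ' : Tendsto (fun n : ℕ => ((P512.g n : ℝ) / n.factorial) ^ (1 / (n : ℝ))) atTop (𝓝 γ) := by
    simpa only [P512.numG_eq] using hγ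
  have hγe := K5T.gamma_eq hR hfin hloc hT hk ha3 hγ'
  rw [hval] at hγe
  refine ⟨hγ0, by rw [← hγe]; exact hγ, K, K', hK, hK', ?_, ?_, ?_⟩
  · simp only [P512.numG_eq]
    exact ratio hγ0 hK hT1
  · simp only [P512.numC_eq]
    exact ratio hγ0 hK' hT2
  · have h1 : K / K' = ∑' n : ℕ, (P512.g n : ℝ) / n.factorial * (Real.exp g0 / R)⁻¹ ^ n := by
      rw [hKK]
      field_simp
    rw [h1]
    simp only [P512.numG_eq]
    refine (hsum.hasSum).congr_fun ?_ 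
    intro n
    rw [inv_pow]
    have h4 : (n.factorial : ℝ) ≠ 0 := by positivity
    field_simp

end K5F
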