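import Pool.Agent.Lib.K5F.F1
import Pool.Agent.Lib.K5.ENet
import Pool.Agent.Lib.K5.EPow
import Pool.Agent.Lib.K5.EBInt

/-!
# K5F.HypE: the outputs of the chapters on the edge weights
-/

set_option autoImplicit false

namespace K5F

open K5

/-- The hypotheses `Hyp` hold. -/
theorem hyp : Hyp where
  ser := fun x => by
    obtain ⟨c, h0, -, hc⟩ := Dy_series x
    exact ⟨c, h0, hc⟩
  one := fun x => Dy_one x
  qy := fun x y => Dy_Qy x y
  eq := fun _ _ hx hy h => E1 hx hy h
  blk := blk_int

end K5F
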