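import Pool.Agent.Lib.K5F.HSeg

/-!
# K5F.HMain: from the local form of the networks to the local form of the blocks

`D n`: coefficients of the series of the networks, `β n`: coefficients of the derivative of the series of the blocks, `B n`: coefficients of the series of the blocks; `β (n + 1) ≤ D n ≤ K β (n + 1)` for `n ≥ 1`.
If the series of the networks is `ζ (√(1 - x/R))` near `R` with `ζ v = z0 + z2 v^2 + z3 v^3 + O(v^4)`, `z3 ≠ 0`, and the series with coefficients `β` (or `B`) is an analytic function of `√(1 - x/R)` near `R` on the real line,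
then the data of K5T hold for `β` with `a3 ≠ 0`.
-/

namespace K5F

open Filter Topology Metric Asymptotics K5T HSegAux

namespace HMainAux

theorem T3_of {h : ℂ → ℂ} (hh : AnalyticAt ℂ h 0) (hd : deriv h 0 = 0) :
    T3 h (h 0) (d2 h 0) (deriv (d2 h) 0) := by
  refine ⟨hh, ?_⟩
  have h1 := an_dslope (an_dslope (d2_an hh))
  have h2 : ∀ v : ℂ, h v - (h 0 + d2 h 0 * v ^ 2 + deriv (d2 h) 0 * v ^ 3) =
      v ^ 4 * dslope (dslope (d2 h) 0) 0 v := by
    intro v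
    have e1 := d2_eq hd v
    have e2 := sub_smul_dslope (d2 h) 0 v
    have e3 := sub_smul_dslope (dslope (d2 h) 0) 0 v
    rw [dslope_same, sub_zero, smul_eq_mul] at e3
    rw [sub_zero, smul_eq_mul] at e2
    linear_combination e1 - v ^ 2 * e2 - v ^ 3 * e3
  have h3 : (fun v => h v - (h 0 + d2 h 0 * v ^ 2 + deriv (d2 h) 0 * v ^ 3)) =
      fun v => v ^ 4 * dslope (dslope (d2 h) 0) 0 v := funext h2
  rw [h3]
  have h4 : (fun v : ℂ => dslope (dslope (d2 h) 0) 0 v) =O[𝓝 0] (fun _ => (1 : ℂ)) :=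
    h1.continuousAt.isBigO_one ℂ
  have h5 := (isBigO_refl (fun v : ℂ => v ^ 4) (𝓝 0)).mul h4
  simpa using h5

/-- Divide by a power of `v`. -/
theorem div_pow {f : ℂ → ℂ} {k m : ℕ} (hf : (fun v => v ^ k * f v) =O[𝓝 0] (fun v => v ^ (k + m))) :
    f =O[𝓝[≠] 0] (fun v => v ^ m) := by
  have h1 := hf.mono (nhdsWithin_le_nhds (s := {0}ᶜ))
  obtain ⟨C, hC⟩ := h1.bound
  refine IsBigO.of_bound C ?_
  filter_upwards [hC, self_mem_nhdsWithin] with v hv hv0
  have h2 : 0 < ‖v‖ ^ k := pow_pos (norm_pos_iff.2 hv0) k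
  rw [norm_mul, norm_pow, norm_pow, pow_add] at hv
  rw [norm_pow]
  have h3 : ‖v‖ ^ k * ‖f v‖ ≤ ‖v‖ ^ k * (C * ‖v‖ ^ m) := by
    calc ‖v‖ ^ k * ‖f v‖ ≤ C * (‖v‖ ^ k * ‖v‖ ^ m) := hv
      _ = _ := by ring
  exact le_of_mul_le_mul_left h3 h2

theorem lim_zero {f : ℂ → ℂ} {m : ℕ} (hm : 1 ≤ m) (hf : f =O[𝓝[≠] 0] (fun v => v ^ m)) :
    Tendsto f (𝓝[≠] 0) (𝓝 0) := by
  refine hf.trans_tendsto ?_
  have h1 : ContinuousAt (fun v : ℂ => v ^ m) 0 := by fun_prop
  have h2 : Tendsto (fun v : ℂ => v ^ m) (𝓝 0) (𝓝 (0 ^ m)) := h1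
  rw [zero_pow (by omega)] at h2
  exact h2.mono_left nhdsWithin_le_nhds

theorem T3_val {h : ℂ → ℂ} {a0 a2 a3 : ℂ} (H : T3 h a0 a2 a3) : a0 = h 0 := by
  obtain ⟨C, hC⟩ := H.exp.bound
  have h1 := hC.self_of_nhds
  simp only [ne_eq, OfNat.ofNat_ne_zero, not_false_eq_true, zero_pow, mul_zero, add_zero,
    norm_zero] at h1
  have h2 := norm_le_zero_iff.1 h1
  exact (sub_eq_zero.1 h2).symm

theorem T3_deriv {h : ℂ → ℂ} {a0 a2 a3 : ℂ} (H : T3 h a0 a2 a3) : deriv h 0 = 0 := by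
  have h0 := T3_val H
  have h1 : HasDerivAt h (deriv h 0) 0 := H.an.differentiableAt.hasDerivAt
  have h2 := hasDerivAt_iff_tendsto_slope.1 h1
  -- `(h v - h 0) / v = O(v)`
  have h3 : (fun v : ℂ => h v - h 0) =O[𝓝 0] (fun v => v ^ 2) := by
    have e1 : (fun v : ℂ => h v - h 0) = fun v =>
        (h v - (a0 + a2 * v ^ 2 + a3 * v ^ 3)) + (a2 + a3 * v) * v ^ 2 := by
      funext v
      rw [← h0]
      ring
    rw [e1]
    refine IsBigO.add ?_ ?_
    · refine H.exp.trans ?_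
      have e2 : (fun v : ℂ => v ^ 4) = fun v => v ^ 2 * v ^ 2 := by
        funext v
        ring
      rw [e2]
      have e3 : (fun v : ℂ => v ^ 2) =O[𝓝 0] (fun _ => (1 : ℂ)) := by
        have : ContinuousAt (fun v : ℂ => v ^ 2) 0 := by fun_prop
        exact this.isBigO_one ℂ
      have e4 := (isBigO_refl (fun v : ℂ => v ^ 2) (𝓝 0)).mul e3
      simpa using e4
    · have e3 : (fun v : ℂ => a2 + a3 * v) =O[𝓝 0] (fun _ => (1 : ℂ)) := by
        have : ContinuousAt (fun v : ℂ => a2 + a3 * v) 0 := by fun_prop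
        exact this.isBigO_one ℂ
      have e4 := e3.mul (isBigO_refl (fun v : ℂ => v ^ 2) (𝓝 0))
      simpa using e4
  have h4 : Tendsto (slope h 0) (𝓝[≠] 0) (𝓝 0) := by
    have e5 : (fun v : ℂ => v ^ 1 * slope h 0 v) =O[𝓝 0] (fun v => v ^ (1 + 1)) := by
      refine h3.congr_left (fun v => ?_)
      rcases eq_or_ne v 0 with rfl | hv
      · simp
      · rw [slope_def_field, sub_zero]
        field_simp
    exact lim_zero le_rfl (div_pow e5)
  exact tendsto_nhds_unique h2 h4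

theorem T3_unique {h : ℂ → ℂ} {a0 a2 a3 : ℂ} (H : T3 h a0 a2 a3) :
    a2 = d2 h 0 ∧ a3 = deriv (d2 h) 0 := by
  have h0 := T3_val H
  have H' := T3_of H.an (T3_deriv H)
  have h1 := H.exp.sub H'.exp
  have h2 : (fun v : ℂ => v ^ 2 * ((d2 h 0 - a2) + v * (deriv (d2 h) 0 - a3))) =O[𝓝 0]
      (fun v => v ^ (2 + 2)) := by
    refine h1.congr_left (fun v => ?_)
    rw [h0]
    ring
  have h3 := lim_zero (by norm_num) (div_pow h2)
  have h4 : Tendsto (fun v : ℂ => (d2 h 0 - a2) + v * (deriv (d2 h) 0 - a3)) (𝓝[≠] 0)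
      (𝓝 (d2 h 0 - a2)) := by
    have : ContinuousAt (fun v : ℂ => (d2 h 0 - a2) + v * (deriv (d2 h) 0 - a3)) 0 := by fun_prop
    have h5 : Tendsto (fun v : ℂ => (d2 h 0 - a2) + v * (deriv (d2 h) 0 - a3)) (𝓝 0)
      (𝓝 ((d2 h 0 - a2) + 0 * (deriv (d2 h) 0 - a3))) := this
    rw [zero_mul, add_zero] at h5
    exact h5.mono_left nhdsWithin_le_nhds
  have h5 := tendsto_nhds_unique h4 h3
  refine ⟨(sub_eq_zero.1 h5).symm, ?_⟩
  have h6 : (fun v : ℂ => v ^ 3 * (deriv (d2 h) 0 - a3)) =O[𝓝 0] (fun v => v ^ (3 + 1)) := by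
    refine h2.congr_left (fun v => ?_)
    rw [h5]
    ring
  have h7 := lim_zero le_rfl (div_pow h6)
  have h8 := tendsto_nhds_unique tendsto_const_nhds h7
  exact (sub_eq_zero.1 h8).symm

end HMainAux

open HMainAux

variable {R : ℝ} {D B β : ℕ → ℝ} {ζ h b : ℂ → ℂ} {z0 z2 z3 : ℂ} {K : ℝ}

/-- `∑ n β n R^n` converges. -/
theorem sum_beta (hD : Sg R D ζ) (hζ : T3 ζ z0 z2 z3) (hβ : ∀ n, 0 ≤ β n)
    (h1 : ∀ n, 1 ≤ n → β (n + 1) ≤ D n) : Summable (fun n : ℕ => (n : ℝ) * β n * R ^ n) := by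
  have hR := hD.pos
  have e1 := hD.sum_deriv (T3_deriv hζ)
  rw [← summable_nat_add_iff 2]
  have e2 := (summable_nat_add_iff 1 (f := fun n : ℕ => (n : ℝ) * D n * R ^ n)).2 e1
  refine Summable.of_nonneg_of_le (fun n => ?_) (fun n => ?_) (e2.mul_left (2 * R))
  · exact mul_nonneg (mul_nonneg (Nat.cast_nonneg _) (hβ _)) (pow_nonneg hR.le _)
  · have e3 := h1 (n + 1) (by omega)
    have e4 : 0 ≤ D (n + 1) := hD.nonneg _
    have e5 : ((n + 2 : ℕ) : ℝ) * β (n + 2) ≤ 2 * ((n + 1 : ℕ) : ℝ) * D (n + 1) := by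
      push_cast
      have e6 : (0 : ℝ) ≤ (n : ℝ) + 2 := by positivity
      have e7 := mul_le_mul_of_nonneg_left e3 e6
      have e8 : (0 : ℝ) ≤ (n : ℝ) * D (n + 1) := mul_nonneg (Nat.cast_nonneg n) e4
      nlinarith
    have e9 : 0 ≤ R ^ (n + 2) := pow_nonneg hR.le _
    calc ((n + 2 : ℕ) : ℝ) * β (n + 2) * R ^ (n + 2)
        ≤ 2 * ((n + 1 : ℕ) : ℝ) * D (n + 1) * R ^ (n + 2) := mul_le_mul_of_nonneg_right e5 e9
      _ = 2 * R * (((n + 1 : ℕ) : ℝ) * D (n + 1) * R ^ (n + 1)) := by ring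

/-- The output of the chapter, from the local form of the series with coefficients `β`. -/
theorem loc_beta (hD : Sg R D ζ) (hζ : T3 ζ z0 z2 z3) (hz3 : z3 ≠ 0) (hβ : Sg R β h)
    (h1 : ∀ n, 1 ≤ n → β (n + 1) ≤ D n) (h2 : ∀ n, 1 ≤ n → D n ≤ K * β (n + 1)) :
    ∃ a0 a2 a3 : ℝ, T3 h a0 a2 a3 ∧ a3 ≠ 0 ∧ Summable (fun n : ℕ => β n * R ^ n) ∧
      a0 = fr β R ∧ Summable (fun n : ℕ => (n : ℝ) * β n * R ^ n) ∧
      a2 = -∑' n : ℕ, (n : ℝ) * β n * R ^ n ∧
      ∀ᶠ u in 𝓝[ball (0 : ℂ) R] (R : ℂ), fn β u = h (K5T.sq (u / (R : ℂ))) := by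
  have hR := hD.pos
  have hRc : (R : ℂ) ≠ 0 := by exact_mod_cast hR.ne'
  have hs := sum_beta hD hζ hβ.nonneg h1
  have hd := hβ.deriv_zero hs
  have hst := hβ.step hd
  have hT := T3_of hβ.an hd
  -- the coefficient `a2`
  have hv2 := hst.val
  rw [st_zero] at hv2
  have ha2 : d2 h 0 = ((-(R * fr (dS β) R) : ℝ) : ℂ) := by
    push_cast
    rw [hv2]
    field_simp
  have hsum2 : R * fr (dS β) R = ∑' n : ℕ, (n : ℝ) * β n * R ^ n := by
    rw [hs.tsum_eq_zero_add]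
    unfold fr dS
    rw [← tsum_mul_left]
    simp only [Nat.cast_zero, zero_mul, zero_add]
    refine tsum_congr (fun n => ?_)
    push_cast
    ring
  -- the coefficient `a3`
  have hd3 := st_deriv (R := R) hβ.an
  have him := hst.deriv_im
  have ha3 : deriv (d2 h) 0 = (((deriv (d2 h) 0).re : ℝ) : ℂ) := by
    have e1 : deriv (d2 h) 0 = ((-(2 * R / 3) : ℝ) : ℂ) * deriv (st R h) 0 := by
      rw [hd3]
      push_cast
      field_simp
    refine Complex.ext (by simp) ?_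
    rw [Complex.ofReal_im]
    have e2 : (deriv (d2 h) 0).im = (-(2 * R / 3)) * (deriv (st R h) 0).im := by
      conv_lhs => rw [e1]
      exact Complex.im_ofReal_mul _ _
    rw [e2, him, mul_zero]
  refine ⟨fr β R, -(R * fr (dS β) R), (deriv (d2 h) 0).re, ?_, ?_, hβ.sum_R, rfl, hs, ?_,
    hβ.cplx⟩
  · rw [← ha3, ← ha2, hβ.val]
    exact hT
  · intro h3
    have h4 : deriv (d2 h) 0 = 0 := by
      rw [ha3, h3]
      simp
    have h5 : deriv (st R h) 0 = 0 := by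
      rw [hd3, h4]
      simp
    have h6 := hst.sum_deriv h5
    -- the networks
    have hζd := T3_deriv hζ
    have hDs := hD.step hζd
    have h7 : Summable (fun n : ℕ => (n : ℝ) * dS D n * R ^ n) := by
      have h8 := (summable_nat_add_iff 1 (f := fun n : ℕ => (n : ℝ) * dS β n * R ^ n)).2 h6
      refine Summable.of_nonneg_of_le (fun n => ?_) (fun n => ?_) (h8.mul_left (K / R))
      · exact mul_nonneg (mul_nonneg (Nat.cast_nonneg _) (hDs.nonneg _)) (pow_nonneg hR.le _)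
      · have e1 := h2 (n + 1) (by omega)
        have e2 : 0 ≤ D (n + 1) := hD.nonneg _
        have e3 : 0 ≤ K * β (n + 1 + 1) := e2.trans e1
        unfold dS
        have e4 : (n : ℝ) * (((n : ℝ) + 1) * D (n + 1)) ≤
            ((n : ℝ) + 1) * (((n : ℝ) + 1 + 1) * (K * β (n + 1 + 1))) := by
          have e5 : (n : ℝ) * (((n : ℝ) + 1) * D (n + 1)) ≤
              (n : ℝ) * (((n : ℝ) + 1) * (K * β (n + 1 + 1))) := by
            refine mul_le_mul_of_nonneg_left ?_ (Nat.cast_nonneg n)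
            exact mul_le_mul_of_nonneg_left e1 (by positivity)
          have e6 : (0 : ℝ) ≤ ((n : ℝ) + 1) * (K * β (n + 1 + 1)) := mul_nonneg (by positivity) e3
          nlinarith
        have e9 : 0 ≤ R ^ n := pow_nonneg hR.le _
        calc (n : ℝ) * (((n : ℝ) + 1) * D (n + 1)) * R ^ n
            ≤ ((n : ℝ) + 1) * (((n : ℝ) + 1 + 1) * (K * β (n + 1 + 1))) * R ^ n :=
              mul_le_mul_of_nonneg_right e4 e9
          _ = K / R * (((n + 1 : ℕ) : ℝ) * ((((n + 1 : ℕ) : ℝ) + 1) * β (n + 1 + 1)) *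
              R ^ (n + 1)) := by
              push_cast
              rw [pow_succ]
              field_simp
    have h8 := hDs.deriv_zero h7
    have h9 := st_deriv (R := R) hD.an
    rw [h8] at h9
    have h10 : deriv (d2 ζ) 0 = 0 := by
      have : -(3 * deriv (d2 ζ) 0) / (2 * (R : ℂ)) = 0 := h9.symm
      rw [div_eq_zero_iff] at this
      rcases this with h11 | h11
      · have : (3 : ℂ) * deriv (d2 ζ) 0 = 0 := neg_eq_zero.1 h11
        simpa using this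
      · exfalso
        apply hRc
        simpa using h11
    exact hz3 ((T3_unique hζ).2.trans h10)
  · rw [hsum2]

/-- The same from the local form of the series with coefficients `B`, `β = B'`. -/
theorem loc_B (hD : Sg R D ζ) (hζ : T3 ζ z0 z2 z3) (hz3 : z3 ≠ 0) (hB : Sg R B b)
    (hβB : ∀ n, β n = dS B n)
    (h1 : ∀ n, 1 ≤ n → β (n + 1) ≤ D n) (h2 : ∀ n, 1 ≤ n → D n ≤ K * β (n + 1)) :
    ∃ (h : ℂ → ℂ) (a0 a2 a3 : ℝ), T3 h a0 a2 a3 ∧ a3 ≠ 0 ∧ Summable (fun n : ℕ => β n * R ^ n) ∧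
      a0 = fr β R ∧ Summable (fun n : ℕ => (n : ℝ) * β n * R ^ n) ∧
      a2 = -∑' n : ℕ, (n : ℝ) * β n * R ^ n ∧
      ∀ᶠ u in 𝓝[ball (0 : ℂ) R] (R : ℂ), fn β u = h (K5T.sq (u / (R : ℂ))) := by
  have hR := hD.pos
  have hβ : β = dS B := funext hβB
  have hβ0 : ∀ n, 0 ≤ β n := by
    intro n
    rw [hβ]
    exact mul_nonneg (by positivity) (hB.nonneg _)
  have hs := sum_beta hD hζ hβ0 h1
  -- `∑ β n R^n` converges
  have hs0 : Summable (fun n : ℕ => β n * R ^ n) := by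
    rw [← summable_nat_add_iff 1]
    refine Summable.of_nonneg_of_le (fun n => ?_) (fun n => ?_)
      ((summable_nat_add_iff 1 (f := fun n : ℕ => (n : ℝ) * β n * R ^ n)).2 hs)
    · exact mul_nonneg (hβ0 _) (pow_nonneg hR.le _)
    · have e1 : (1 : ℝ) ≤ ((n + 1 : ℕ) : ℝ) := by
        push_cast
        linarith [Nat.cast_nonneg (α := ℝ) n]
      have e2 : 0 ≤ β (n + 1) * R ^ (n + 1) := mul_nonneg (hβ0 _) (pow_nonneg hR.le _)
      nlinarith
  have hs1 : Summable (fun n : ℕ => (n : ℝ) * B n * R ^ n) := by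
    rw [hβ] at hs0
    exact (dS_sum_iff hR).1 hs0
  have hd := hB.deriv_zero hs1
  have hst := hB.step hd
  rw [← hβ] at hst
  obtain ⟨a0, a2, a3, H⟩ := loc_beta hD hζ hz3 hst h1 h2
  exact ⟨_, a0, a2, a3, H⟩

end K5F
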