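import Pool.Agent.Lib.K5F.EdgeB
import Pool.Agent.Lib.K5F.HMain
import Pool.Agent.Lib.K5.BQ
import Pool.Agent.Lib.K5.BEdge

/-!
# K5F.EdgeC: the coefficients of networks and of blocks are comparable

`Dc n`: the coefficients of the series of the networks (`D` in K5.Defs3), `bb n = bC n / n!` the coefficients of the derivative of the series of the blocks, `Bn n = bC (n - 1) / n!` those of the series of the blocks.
`bb (n + 1) ≤ Dc n / 4` and `Dc n ≤ 600000 bb (n + 1)` for `n ≥ 1`.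
-/

namespace K5F

open Finset K5 Filter Topology Metric K5T
open scoped ENNReal

/-- The coefficients of the series of the networks. -/
noncomputable def Dc (n : ℕ) : ℝ := (if n = 0 then 1 else 2 * (Q n : ℝ)) / (n.factorial : ℝ)

/-- The coefficients of the derivative of the series of the blocks. -/
noncomputable def bt (n : ℕ) : ℝ := (bC n : ℝ) / (n.factorial : ℝ)

/-- The coefficients of the series of the blocks. -/
noncomputable def Bn (n : ℕ) : ℝ := if n = 0 then 0 else (bC (n - 1) : ℝ) / (n.factorial : ℝ)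

theorem Dc_nonneg (n : ℕ) : 0 ≤ Dc n := by
  unfold Dc
  refine div_nonneg ?_ (Nat.cast_nonneg _)
  split_ifs <;> positivity

theorem bt_nonneg (n : ℕ) : 0 ≤ bt n := div_nonneg (Nat.cast_nonneg _) (Nat.cast_nonneg _)

theorem bt_eq (n : ℕ) : bt n = dS Bn n := by
  unfold bt dS Bn
  rw [if_neg (Nat.succ_ne_zero n), Nat.add_sub_cancel, Nat.factorial_succ]
  push_cast
  have h1 : (n.factorial : ℝ) ≠ 0 := by exact_mod_cast n.factorial_ne_zero
  have h2 : ((n : ℝ) + 1) ≠ 0 := by positivity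
  field_simp

theorem Q_le_bC (n : ℕ) : (n + 1) * Q n ≤ 300000 * bC (n + 1) := by
  have hfin := finite_bb (range (n + 2))
  have hS : 2 ≤ (range (n + 2)).card := by rw [Finset.card_range]; omega
  have h1 := dg_sum hS
  have h2 : ∑' G : {G : Gr // BB (range (n + 2)) G}, (dg G.1 (range (n + 2)) : ℝ≥0∞) ≤
      ∑' _ : {G : Gr // BB (range (n + 2)) G}, ((300000 * (n + 2) : ℕ) : ℝ≥0∞) := by
    refine ENNReal.tsum_le_tsum (fun G => ?_)
    have h3 := dg_lin G.2.free (S := range (n + 2)) ⟨0, by simp⟩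
    rw [Finset.card_range] at h3
    exact_mod_cast h3
  have h4 : ∑' _ : {G : Gr // BB (range (n + 2)) G}, ((300000 * (n + 2) : ℕ) : ℝ≥0∞) =
      ((bC (n + 1) * (300000 * (n + 2)) : ℕ) : ℝ≥0∞) := by
    have h5 : ∀ c : ℝ≥0∞, ∑' _ : {G : Gr // BB (range (n + 2)) G}, c =
        (∑' _ : {G : Gr // BB (range (n + 2)) G}, (1 : ℝ≥0∞)) * c := by
      intro c
      rw [← ENNReal.tsum_mul_right]
      simp
    rw [h5, tsum_one, bb_card ⟨0, by simp⟩, Finset.card_range]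
    push_cast
    rfl
  rw [h1, h4, Finset.card_range] at h2
  have h6 : (n + 2) * (n + 2 - 1) * Q (n + 2 - 2) ≤ bC (n + 1) * (300000 * (n + 2)) := by
    exact_mod_cast h2
  have h7 : n + 2 - 1 = n + 1 := by omega
  have h8 : n + 2 - 2 = n := by omega
  rw [h7, h8] at h6
  have h9 : (n + 2) * ((n + 1) * Q n) ≤ (n + 2) * (300000 * bC (n + 1)) := by
    calc (n + 2) * ((n + 1) * Q n) = (n + 2) * (n + 1) * Q n := by ring
      _ ≤ bC (n + 1) * (300000 * (n + 2)) := h6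
      _ = _ := by ring
  exact Nat.le_of_mul_le_mul_left h9 (by omega)

theorem bt_le_quarter (n : ℕ) (hn : 1 ≤ n) : bt (n + 1) ≤ Dc n / 4 := by
  have h1 : (2 * bC (n + 1) : ℝ) ≤ (n + 1) * Q n := by exact_mod_cast bC_le hn
  unfold bt Dc
  rw [if_neg (by omega), Nat.factorial_succ]
  push_cast
  have h2 : (0 : ℝ) < n.factorial := by exact_mod_cast n.factorial_pos
  have h3 : (0 : ℝ) < (n : ℝ) + 1 := by positivity
  rw [div_div, div_le_div_iff₀ (mul_pos h3 h2) (by positivity)]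
  nlinarith [mul_le_mul_of_nonneg_right h1 h2.le]

theorem bt_le (n : ℕ) (hn : 1 ≤ n) : bt (n + 1) ≤ Dc n := by
  have h1 := bt_le_quarter n hn
  have h2 := Dc_nonneg n
  linarith

theorem Dc_le (n : ℕ) (hn : 1 ≤ n) : Dc n ≤ 600000 * bt (n + 1) := by
  have h1 : ((n : ℝ) + 1) * Q n ≤ 300000 * bC (n + 1) := by exact_mod_cast Q_le_bC n
  unfold bt Dc
  rw [if_neg (by omega), Nat.factorial_succ]
  push_cast
  have h2 : (0 : ℝ) < n.factorial := by exact_mod_cast n.factorial_pos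
  have h3 : (0 : ℝ) < (n : ℝ) + 1 := by positivity
  rw [← mul_div_assoc, div_le_div_iff₀ h2 (mul_pos h3 h2)]
  nlinarith [mul_le_mul_of_nonneg_right h1 h2.le]

variable {R : ℝ} {ζ h b : ℂ → ℂ} {z0 z2 z3 : ℂ}

/-- `R B''(R)` is small: `∑ n β n R^n ≤ R + (R/4) (∑ n D n R^n + D(R) - 1)`. -/
theorem kap_bound (hD : Sg R Dc ζ) (hζ : T3 ζ z0 z2 z3) :
    ∑' n : ℕ, (n : ℝ) * bt n * R ^ n ≤
      R * bt 1 + R / 4 * (∑' n : ℕ, (n : ℝ) * Dc n * R ^ n + (fr Dc R - 1)) := by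
  have hR := hD.pos
  have hs := sum_beta hD hζ bt_nonneg bt_le
  have e1 := hD.sum_deriv (HMainAux.T3_deriv hζ)
  have e2 := hD.sum_R
  have hs1 := (summable_nat_add_iff 1 (f := fun n : ℕ => (n : ℝ) * bt n * R ^ n)).2 hs
  have hs2 := (summable_nat_add_iff 1
    (f := fun n : ℕ => ((n + 1 : ℕ) : ℝ) * bt (n + 1) * R ^ (n + 1))).2 hs1
  rw [hs.tsum_eq_zero_add, hs1.tsum_eq_zero_add]
  have e3 := (summable_nat_add_iff 1 (f := fun n : ℕ => (n : ℝ) * Dc n * R ^ n)).2 e1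
  have e4 := (summable_nat_add_iff 1 (f := fun n : ℕ => Dc n * R ^ n)).2 e2
  have e5 : fr Dc R - 1 = ∑' n : ℕ, Dc (n + 1) * R ^ (n + 1) := by
    unfold fr
    rw [e2.tsum_eq_zero_add]
    have : Dc 0 = 1 := by simp [Dc]
    rw [this]
    ring
  rw [e1.tsum_eq_zero_add, e5]
  have e9 := e3.tsum_add e4
  have e6 : ∑' n : ℕ, (((n + 1 + 1 : ℕ) : ℝ) * bt (n + 1 + 1) * R ^ (n + 1 + 1)) ≤
      ∑' n : ℕ, R / 4 * (((n + 1 : ℕ) : ℝ) * Dc (n + 1) * R ^ (n + 1) + Dc (n + 1) * R ^ (n + 1)) := by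
    refine hs2.tsum_le_tsum (fun n => ?_) ((e3.add e4).mul_left _)
    have e7 := bt_le_quarter (n + 1) (by omega)
    have e8 : (0 : ℝ) ≤ ((n + 1 + 1 : ℕ) : ℝ) * R ^ (n + 1 + 1) := by positivity
    calc ((n + 1 + 1 : ℕ) : ℝ) * bt (n + 1 + 1) * R ^ (n + 1 + 1)
        = ((n + 1 + 1 : ℕ) : ℝ) * R ^ (n + 1 + 1) * bt (n + 1 + 1) := by ring
      _ ≤ ((n + 1 + 1 : ℕ) : ℝ) * R ^ (n + 1 + 1) * (Dc (n + 1) / 4) :=
          mul_le_mul_of_nonneg_left e7 e8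
      _ = _ := by
          push_cast
          ring
  rw [tsum_mul_left, e9] at e6
  simp only [Nat.cast_zero, zero_mul, zero_add, Nat.cast_one, one_mul, pow_one] at e6 ⊢
  linarith

/-- The output for the blocks from the local form of `B'`. -/
theorem loc_bt (hD : Sg R Dc ζ) (hζ : T3 ζ z0 z2 z3) (hz3 : z3 ≠ 0) (hb : Sg R bt h) :
    ∃ a0 a2 a3 : ℝ, T3 h a0 a2 a3 ∧ a3 ≠ 0 ∧ Summable (fun n : ℕ => bt n * R ^ n) ∧
      a0 = fr bt R ∧ Summable (fun n : ℕ => (n : ℝ) * bt n * R ^ n) ∧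
      a2 = -∑' n : ℕ, (n : ℝ) * bt n * R ^ n ∧
      ∀ᶠ u in 𝓝[ball (0 : ℂ) R] (R : ℂ), fn bt u = h (K5T.sq (u / (R : ℂ))) :=
  loc_beta hD hζ hz3 hb bt_le Dc_le

/-- The output for the blocks from the local form of `B`. -/
theorem loc_Bn (hD : Sg R Dc ζ) (hζ : T3 ζ z0 z2 z3) (hz3 : z3 ≠ 0) (hB : Sg R Bn b) :
    ∃ (h : ℂ → ℂ) (a0 a2 a3 : ℝ), T3 h a0 a2 a3 ∧ a3 ≠ 0 ∧
      Summable (fun n : ℕ => bt n * R ^ n) ∧
      a0 = fr bt R ∧ Summable (fun n : ℕ => (n : ℝ) * bt n * R ^ n) ∧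
      a2 = -∑' n : ℕ, (n : ℝ) * bt n * R ^ n ∧
      ∀ᶠ u in 𝓝[ball (0 : ℂ) R] (R : ℂ), fn bt u = h (K5T.sq (u / (R : ℂ))) :=
  loc_B hD hζ hz3 hB bt_eq bt_le Dc_le

end K5F
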