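import Pool.Agent.Lib.K5F.Kap
import Pool.Agent.Lib.K5F.EdgeC
import Pool.Agent.Lib.K5.BSmall

/-!
# K5F.KapL: `R B''(R) < 1` from three crude numbers

`kap_Sg`: `R ≤ 0.0374`, `D(R) ≤ 1.1` and `- z2 ≤ 95` (true value `0.141`) are enough.
`kap_H`: the same with `z2 = - (R H)`, `H ≤ 2500` (true value `3.7777`), `H` the derivative of the series of the networks at `R`.
-/

set_option autoImplicit false

namespace K5F

open K5T

theorem bt_one : bt 1 = 1 := by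
  unfold bt
  rw [K5.bC_one]
  simp

theorem Dc_zero : Dc 0 = 1 := by
  simp [Dc]

variable {R : ℝ} {ζ : ℂ → ℂ} {z0 z2 z3 : ℂ}

theorem kap_Sg (hD : Sg R Dc ζ) (hζ : T3 ζ z0 z2 z3) (hR : R ≤ 374 / 10000)
    (hD1 : fr Dc R ≤ 11 / 10) (hz : -z2.re ≤ 95) :
    ∑' n : ℕ, (n : ℝ) * bt n * R ^ n < 1 := by
  have hR0 := hD.pos
  refine kap_of hD hζ bt_nonneg bt_one.le (fun n hn => bt_le_quarter n hn) ?_
  rw [Dc_zero]
  have h1 : fr Dc R - 1 - z2.re ≤ 951 / 10 := by linarith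
  have h2 : R / 4 * (fr Dc R - 1 - z2.re) ≤ R / 4 * (951 / 10) :=
    mul_le_mul_of_nonneg_left h1 (by positivity)
  linarith

theorem kap_H {H : ℝ} (hD : Sg R Dc ζ) (hζ : T3 ζ z0 ((-(R * H) : ℝ) : ℂ) z3)
    (hR : R ≤ 374 / 10000) (hD1 : fr Dc R ≤ 11 / 10) (hH : H ≤ 2500) :
    ∑' n : ℕ, (n : ℝ) * bt n * R ^ n < 1 := by
  refine kap_Sg hD hζ hR hD1 ?_
  have hR0 := hD.pos
  rw [Complex.ofReal_re, neg_neg]
  nlinarith [mul_le_mul_of_nonneg_left hH hR0.le]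

end K5F
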