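import Pool.Agent.Lib.K5F.F1
import Pool.Agent.Lib.K5F.EdgeC

/-!
# K5F.Glue: the series of the networks and of the blocks near `R`

`D(x) = fr Dc x` (`hasSum_dr`), `Bn = Bc`.  `Sg_Dc`: `Sg R Dc ζ` from the real function `dr`.  `Hyp.Sg_Bn`: if the explicit expression
`BF` of `F1` for the series of the blocks is an analytic function of `√(1 - x/R)` for real `x < R` near `R` then `Sg R Bn b`.
-/

set_option autoImplicit false

namespace K5F

open K5 Filter Topology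
open scoped ENNReal

theorem D_ofReal {x : ℝ} (hx : 0 ≤ x) :
    D (.ofReal x) = ∑' n : ℕ, ENNReal.ofReal (Dc n * x ^ n) := by
  unfold D
  refine tsum_congr fun n => ?_
  have h1 : (0 : ℝ) < (n.factorial : ℝ) := by exact_mod_cast Nat.factorial_pos _
  have h2 : Dc n * x ^ n = x ^ n / (n.factorial : ℝ) * (if n = 0 then 1 else 2 * (Q n : ℝ)) := by
    unfold Dc
    ring
  have h3 : ENNReal.ofReal (if n = 0 then (1 : ℝ) else 2 * (Q n : ℝ)) =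
      (if n = 0 then 1 else 2 * (Q n : ℝ≥0∞)) := by
    split_ifs
    · exact ENNReal.ofReal_one
    · rw [ENNReal.ofReal_mul two_pos.le, ENNReal.ofReal_natCast]
      norm_num
  rw [h2, ENNReal.ofReal_mul (by positivity), ENNReal.ofReal_div_of_pos h1,
    ENNReal.ofReal_pow hx, ENNReal.ofReal_natCast, h3]

theorem summable_Dc {x : ℝ} (hx : 0 ≤ x) (hD : D (.ofReal x) ≠ ⊤) :
    Summable fun n : ℕ => Dc n * x ^ n := by
  rw [D_ofReal hx] at hD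
  refine (ENNReal.summable_toReal hD).congr fun n => ?_
  exact ENNReal.toReal_ofReal (mul_nonneg (Dc_nonneg n) (pow_nonneg hx n))

theorem hasSum_dr {x : ℝ} (hx : 0 ≤ x) (hD : D (.ofReal x) ≠ ⊤) :
    HasSum (fun n : ℕ => Dc n * x ^ n) (dr x) := by
  have hs := summable_Dc hx hD
  have h1 : dr x = ∑' n : ℕ, Dc n * x ^ n := by
    unfold dr
    rw [D_ofReal hx, ← ENNReal.ofReal_tsum_of_nonneg
      (fun n => mul_nonneg (Dc_nonneg n) (pow_nonneg hx n)) hs, ENNReal.toReal_ofReal]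
    exact tsum_nonneg fun n => mul_nonneg (Dc_nonneg n) (pow_nonneg hx n)
  rw [h1]
  exact hs.hasSum

theorem fr_Dc {x : ℝ} (hx : 0 ≤ x) (hD : D (.ofReal x) ≠ ⊤) : K5T.fr Dc x = dr x :=
  (hasSum_dr hx hD).tsum_eq

theorem D_fin_of_summable {x : ℝ} (hx : 0 ≤ x) (hs : Summable fun n : ℕ => Dc n * x ^ n) :
    D (.ofReal x) ≠ ⊤ := by
  rw [D_ofReal hx, ← ENNReal.ofReal_tsum_of_nonneg
    (fun n => mul_nonneg (Dc_nonneg n) (pow_nonneg hx n)) hs]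
  exact ENNReal.ofReal_ne_top

/-- The data for the networks from the real function `dr`. -/
theorem Sg_Dc {R : ℝ} {ζ : ℂ → ℂ} (hR : 0 < R) (hD : ∀ x, 0 ≤ x → x < R → D (.ofReal x) ≠ ⊤)
    (ha : AnalyticAt ℂ ζ 0)
    (he : ∀ᶠ x in 𝓝[<] R, (dr x : ℂ) = ζ ((Real.sqrt (1 - x / R) : ℝ) : ℂ)) : Sg R Dc ζ where
  pos := hR
  nonneg := Dc_nonneg
  sum x h0 h1 := summable_Dc h0 (hD x h0 h1)
  an := ha
  eq := by
    filter_upwards [he, Ioo_mem_nhdsLT hR] with x hx hx'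
    rw [fr_Dc hx'.1.le (hD x hx'.1.le hx'.2)]
    exact hx

/-- The explicit expression of `F1` for the series of the blocks. -/
noncomputable def BF (x : ℝ) : ℝ :=
  x ^ 2 / 2 * (dr x - (1 + dr x) * Real.log ((1 + dr x) / 2) +
    ∫ z in (0 : ℝ)..dr x, (x * z ^ 2 / (1 + x * z) + T0r x z))

theorem Bn_eq_Bc : Bn = Bc := by
  funext n
  unfold Bn Bc
  split_ifs with hn
  · have h1 := Bc_zero
    unfold Bc at h1
    rw [hn, h1]
  · rfl

/-- The data for the blocks from the real function `BF`. -/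
theorem Hyp.Sg_Bn (h : Hyp) {R : ℝ} {b : ℂ → ℂ} (hR : 0 < R)
    (hD : ∀ x, 0 ≤ x → x < R → D (.ofReal x) ≠ ⊤) (ha : AnalyticAt ℂ b 0)
    (he : ∀ᶠ x in 𝓝[<] R, (BF x : ℂ) = b ((Real.sqrt (1 - x / R) : ℝ) : ℂ)) : Sg R Bn b where
  pos := hR
  nonneg := by
    rw [Bn_eq_Bc]
    exact Bc_nonneg
  sum x h0 h1 := by
    rw [Bn_eq_Bc]
    rcases eq_or_lt_of_le h0 with h2 | h2
    · rw [← h2]
      refine summable_of_ne_finset_zero (s := {0}) fun n hn => ?_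
      rw [Finset.mem_singleton] at hn
      rw [zero_pow hn, mul_zero]
    · exact (h.B_real h2 (hD x h0 h1)).summable
  an := ha
  eq := by
    rw [Bn_eq_Bc]
    filter_upwards [he, Ioo_mem_nhdsLT hR] with x hx hx'
    rw [h.B_fr hx'.1 (hD x hx'.1.le hx'.2)]
    exact hx

/-- All the data for the transfer theorem K5T, from the local form of `D` and of `BF`. -/
theorem Hyp.out (h : Hyp) {R : ℝ} {ζ b : ℂ → ℂ} {z0 z2 z3 : ℂ} (hR : 0 < R)
    (hD : ∀ x, 0 ≤ x → x < R → D (.ofReal x) ≠ ⊤) (hz : K5T.T3 ζ z0 z2 z3) (hz3 : z3 ≠ 0)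
    (heD : ∀ᶠ x in 𝓝[<] R, (dr x : ℂ) = ζ ((Real.sqrt (1 - x / R) : ℝ) : ℂ))
    (hb : AnalyticAt ℂ b 0)
    (heB : ∀ᶠ x in 𝓝[<] R, (BF x : ℂ) = b ((Real.sqrt (1 - x / R) : ℝ) : ℂ)) :
    ∃ (β : ℂ → ℂ) (a0 a2 a3 : ℝ), K5T.T3 β a0 a2 a3 ∧ a3 ≠ 0 ∧
      Summable (fun n : ℕ => bt n * R ^ n) ∧ a0 = K5T.fr bt R ∧
      Summable (fun n : ℕ => (n : ℝ) * bt n * R ^ n) ∧
      a2 = -∑' n : ℕ, (n : ℝ) * bt n * R ^ n ∧
      ∀ᶠ u in 𝓝[Metric.ball (0 : ℂ) R] (R : ℂ), K5T.fn bt u = β (K5T.sq (u / (R : ℂ))) :=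
  loc_Bn (Sg_Dc hR hD hz.an heD) hz hz3 (h.Sg_Bn hR hD hb heB)

end K5F
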