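import Pool.Agent.Lib.K5F.Glue
import Pool.Agent.Lib.K5T.Main

/-!
# K5F.F4: the asymptotic number of graphs, from the local form of the networks and of the blocks

Inputs: `Hyp` (chapter K5E), the local form of the series of the networks `dr` and of the explicit expression `BF` for the blocks as
analytic functions of `√(1 - x/R)` on the real segment, and `∑ n β_n R^n < 1`.
-/

set_option autoImplicit false

namespace K5F

open K5 Filter Topology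
open scoped ENNReal

theorem bE_fin {R : ℝ} (hR : 0 < R) (hs : Summable (fun n : ℕ => bt n * R ^ n)) :
    egf bE (.ofReal R) ≠ ⊤ := by
  have h1 : Summable (fun n : ℕ => (bC n : ℝ) / n.factorial * R ^ n) := hs
  have h2 := K5T.BridgeAux.egf_of_summable bC hR.le h1
  have h3 : bE = fun n => (bC n : ℝ≥0∞) := rfl
  rw [h3, h2]
  exact ENNReal.ofReal_ne_top

theorem Hyp.F4 (h : Hyp) {R : ℝ} {ζ b : ℂ → ℂ} {z0 z2 z3 : ℂ} (hR : 0 < R)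
    (hD : ∀ x, 0 ≤ x → x < R → D (.ofReal x) ≠ ⊤) (hz : K5T.T3 ζ z0 z2 z3) (hz3 : z3 ≠ 0)
    (heD : ∀ᶠ x in 𝓝[<] R, (dr x : ℂ) = ζ ((Real.sqrt (1 - x / R) : ℝ) : ℂ))
    (hb : AnalyticAt ℂ b 0)
    (heB : ∀ᶠ x in 𝓝[<] R, (BF x : ℂ) = b ((Real.sqrt (1 - x / R) : ℝ) : ℂ))
    (kap : ∑' n : ℕ, (n : ℝ) * bt n * R ^ n < 1) :
    (∃ K : ℝ, 0 < K ∧ Tendsto (fun n : ℕ => (P512.g n : ℝ) / n.factorial *
      (R * Real.exp (-K5T.fr bt R)) ^ n * (n : ℝ) ^ (7 / 2 : ℝ)) atTop (𝓝 K)) ∧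
    ∀ γ : ℝ, Tendsto (fun n : ℕ => ((P512.g n : ℝ) / n.factorial) ^ (1 / (n : ℝ))) atTop (𝓝 γ) →
      γ = Real.exp (K5T.fr bt R) / R := by
  obtain ⟨β, a0, a2, a3, hT, ha3, hs, -, -, ha2, hloc⟩ := h.out hR hD hz hz3 heD hb heB
  have hfin := bE_fin hR hs
  have hk : 0 < 1 + a2 := by
    rw [ha2]
    linarith
  exact ⟨K5T.asymp hR hfin hloc hT hk ha3, fun γ hγ => K5T.gamma_eq hR hfin hloc hT hk ha3 hγ⟩

/-- The same from `Sg` for the networks and for the blocks. -/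
theorem F4_Sg {R : ℝ} {ζ b : ℂ → ℂ} {z0 z2 z3 : ℂ} (hD : Sg R Dc ζ)
    (hz : K5T.T3 ζ z0 z2 z3) (hz3 : z3 ≠ 0) (hB : Sg R Bn b)
    (kap : ∑' n : ℕ, (n : ℝ) * bt n * R ^ n < 1) :
    (∃ K : ℝ, 0 < K ∧ Tendsto (fun n : ℕ => (P512.g n : ℝ) / n.factorial *
      (R * Real.exp (-K5T.fr bt R)) ^ n * (n : ℝ) ^ (7 / 2 : ℝ)) atTop (𝓝 K)) ∧
    ∀ γ : ℝ, Tendsto (fun n : ℕ => ((P512.g n : ℝ) / n.factorial) ^ (1 / (n : ℝ))) atTop (𝓝 γ) →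
      γ = Real.exp (K5T.fr bt R) / R := by
  obtain ⟨β, a0, a2, a3, hT, ha3, hs, -, -, ha2, hloc⟩ := loc_Bn hD hz hz3 hB
  have hfin := bE_fin hD.pos hs
  have hk : 0 < 1 + a2 := by
    rw [ha2]
    linarith
  exact ⟨K5T.asymp hD.pos hfin hloc hT hk ha3,
    fun γ hγ => K5T.gamma_eq hD.pos hfin hloc hT hk ha3 hγ⟩

/-- The same from `Sg` for the networks and for the derivative of the series of the blocks. -/
theorem F4_bt {R : ℝ} {ζ β : ℂ → ℂ} {z0 z2 z3 : ℂ} (hD : Sg R Dc ζ)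
    (hz : K5T.T3 ζ z0 z2 z3) (hz3 : z3 ≠ 0) (hB : Sg R bt β)
    (kap : ∑' n : ℕ, (n : ℝ) * bt n * R ^ n < 1) :
    (∃ K : ℝ, 0 < K ∧ Tendsto (fun n : ℕ => (P512.g n : ℝ) / n.factorial *
      (R * Real.exp (-K5T.fr bt R)) ^ n * (n : ℝ) ^ (7 / 2 : ℝ)) atTop (𝓝 K)) ∧
    ∀ γ : ℝ, Tendsto (fun n : ℕ => ((P512.g n : ℝ) / n.factorial) ^ (1 / (n : ℝ))) atTop (𝓝 γ) →
      γ = Real.exp (K5T.fr bt R) / R := by
  obtain ⟨a0, a2, a3, hT, ha3, hs, -, -, ha2, hloc⟩ := loc_bt hD hz hz3 hB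
  have hfin := bE_fin hD.pos hs
  have hk : 0 < 1 + a2 := by
    rw [ha2]
    linarith
  exact ⟨K5T.asymp hD.pos hfin hloc hT hk ha3,
    fun γ hγ => K5T.gamma_eq hD.pos hfin hloc hT hk ha3 hγ⟩

end K5F
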