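import Mathlib

/-!
# K5F.Calc: an integral by an explicit antiderivative

Let `D` be continuous on `[0, 1]`, differentiable inside, monotone, `D 0 = 0`, `S` continuous on `[0, D 1]` and
`log ((1 + D y) / (1 + y)) = S (D y)`.  Then `G y = D y - (1 + D y) * log ((1 + D y) / (1 + y)) + ∫ z in 0..D y, S z` has the
derivative `(1 + D y) / (1 + y)`.
-/

set_option autoImplicit false

namespace K5F

open Set MeasureTheory intervalIntegral

theorem int_formula {D S : ℝ → ℝ} (hc : ContinuousOn D (Icc 0 1))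
    (hd : ∀ y ∈ Ioo (0 : ℝ) 1, DifferentiableAt ℝ D y) (h0 : D 0 = 0)
    (hm : MonotoneOn D (Icc 0 1)) (hS : ContinuousOn S (Icc 0 (D 1)))
    (he : ∀ y ∈ Icc (0 : ℝ) 1, Real.log ((1 + D y) / (1 + y)) = S (D y)) :
    ∫ y in (0 : ℝ)..1, (1 + D y) / (1 + y) =
      D 1 - (1 + D 1) * Real.log ((1 + D 1) / 2) + ∫ z in (0 : ℝ)..D 1, S z := by
  have hD0 : ∀ y ∈ Icc (0 : ℝ) 1, 0 ≤ D y := fun y hy => by
    rw [← h0]
    exact hm (left_mem_Icc.2 zero_le_one) hy hy.1
  have hD1 : ∀ y ∈ Icc (0 : ℝ) 1, D y ≤ D 1 := fun y hy =>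
    hm hy (right_mem_Icc.2 zero_le_one) hy.2
  -- `S` extended to a continuous function
  have h01 : (0 : ℝ) ≤ D 1 := hD0 1 (right_mem_Icc.2 zero_le_one)
  set T : ℝ → ℝ := IccExtend h01 ((Icc 0 (D 1)).domRestrict S) with hT
  have hTc : Continuous T := (continuousOn_iff_continuous_domRestrict.1 hS).Icc_extend'
  have hTS : ∀ z ∈ Icc (0 : ℝ) (D 1), T z = S z := fun z hz => by
    rw [hT, IccExtend_of_mem _ _ hz]
    rfl
  have hI : ∀ y ∈ Icc (0 : ℝ) 1, ∫ z in (0 : ℝ)..D y, T z = ∫ z in (0 : ℝ)..D y, S z := by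
    intro y hy
    refine integral_congr fun z hz => hTS z ?_
    rw [uIcc_of_le (hD0 y hy)] at hz
    exact ⟨hz.1, hz.2.trans (hD1 y hy)⟩
  set G : ℝ → ℝ := fun y => D y - (1 + D y) * Real.log ((1 + D y) / (1 + y)) +
    ∫ z in (0 : ℝ)..D y, T z with hG
  have hpos : ∀ y ∈ Icc (0 : ℝ) 1, 0 < (1 + D y) / (1 + y) := fun y hy =>
    div_pos (by linarith [hD0 y hy]) (by linarith [hy.1])
  have hdiv : ContinuousOn (fun y => (1 + D y) / (1 + y)) (Icc 0 1) := by
    refine (continuousOn_const.add hc).div (continuousOn_const.add continuousOn_id) ?_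
    intro y hy
    have : 0 < 1 + y := by linarith [hy.1]
    exact this.ne'
  have hprim : Continuous fun u : ℝ => ∫ z in (0 : ℝ)..u, T z :=
    intervalIntegral.continuous_primitive (fun a b => hTc.intervalIntegrable a b) 0
  have hGc : ContinuousOn G (Icc 0 1) := by
    refine (hc.sub ((continuousOn_const.add hc).mul (hdiv.log fun y hy => (hpos y hy).ne'))).add ?_
    exact hprim.comp_continuousOn hc
  have hGd : ∀ y ∈ Ioo (0 : ℝ) 1, HasDerivAt G ((1 + D y) / (1 + y)) y := by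
    intro y hy
    have hy' : y ∈ Icc (0 : ℝ) 1 := ⟨hy.1.le, hy.2.le⟩
    have h1 := (hd y hy).hasDerivAt
    have hy1 : (1 : ℝ) + y ≠ 0 := by linarith [hy.1]
    have hDy : (1 : ℝ) + D y ≠ 0 := by linarith [hD0 y hy']
    have h2 : HasDerivAt (fun y => (1 + D y) / (1 + y))
        ((deriv D y * (1 + y) - (1 + D y) * 1) / (1 + y) ^ 2) y := by
      refine HasDerivAt.div (h1.const_add 1) ?_ hy1
      exact (hasDerivAt_id y).const_add 1
    have h3 := h2.log (hpos y hy').ne'
    have h4 : HasDerivAt (fun u => ∫ z in (0 : ℝ)..u, T z) (T (D y)) (D y) :=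
      intervalIntegral.integral_hasDerivAt_right (hTc.intervalIntegrable _ _)
        (hTc.stronglyMeasurableAtFilter _ _) hTc.continuousAt
    have h5 : HasDerivAt (fun y => ∫ z in (0 : ℝ)..D y, T z) (T (D y) * deriv D y) y :=
      h4.comp y h1
    have h6 := (h1.sub ((h1.const_add 1).mul h3)).add h5
    refine h6.congr_deriv ?_
    rw [hTS (D y) ⟨hD0 y hy', hD1 y hy'⟩, ← he y hy']
    field_simp
    ring
  have hint : IntervalIntegrable (fun y => (1 + D y) / (1 + y)) volume 0 1 := by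
    refine ContinuousOn.intervalIntegrable ?_
    rw [uIcc_of_le zero_le_one]
    exact hdiv
  rw [integral_eq_sub_of_hasDerivAt_of_le zero_le_one hGc hGd hint, hG]
  have h11 : (1 : ℝ) ∈ Icc (0 : ℝ) 1 := right_mem_Icc.2 zero_le_one
  simp only [h0, integral_same, hI 1 h11]
  norm_num

end K5F
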