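import Pool.Agent.Lib.P512.A1

/-!
# K5F.EdgeA: a linear bound from a recursion with separators

The same computation as in P512.A1, for a sequence with only the two properties that are used there.
-/

namespace K5F

open P512

theorem EdgeAAux.main {L : ℕ → ℝ} (triv : ∀ n : ℕ, 1 ≤ n → L n ≤ (n : ℝ) ^ 2)
    (rcr : ∀ N : ℕ, 2 ≤ N → ∃ a b : ℕ, N < 3 * a ∧ N < 3 * b ∧ N ≤ a + b ∧
      ((a + b : ℕ) : ℝ) ≤ N + 16 * Real.sqrt N ∧ L N ≤ L a + L b) : ∀ N : ℕ, 20000 ≤ N →
    L N ≤ 300000 * N - 2300000 * (Real.sqrt N * Real.log N) := by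
  intro N
  induction N using Nat.strong_induction_on with
  | _ N ih =>
    intro hN
    have hNr : (20000 : ℝ) ≤ N := by exact_mod_cast hN
    have hs0 : 0 ≤ Real.sqrt N := Real.sqrt_nonneg _
    have hsq : Real.sqrt N ^ 2 = N := Real.sq_sqrt (by linarith)
    have hs : 141 ≤ Real.sqrt N := by
      apply Real.le_sqrt_of_sq_le
      norm_num
      linarith
    by_cases hsm : N ≤ 60000
    · have hsm' : (N : ℝ) ≤ 60000 := by exact_mod_cast hsm
      have h1 := triv N (by omega)
      have h2 := A1Aux.log_small hs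
      rw [hsq] at h2
      have h3 : Real.sqrt N * Real.log N ≤ 0.104 * N := by
        calc Real.sqrt N * Real.log N ≤ Real.sqrt N * (0.104 * Real.sqrt N) :=
              mul_le_mul_of_nonneg_left h2 hs0
          _ = 0.104 * Real.sqrt N ^ 2 := by ring
          _ = 0.104 * N := by rw [hsq]
      nlinarith
    · push Not at hsm
      have hbig : (60000 : ℝ) < N := by exact_mod_cast hsm
      obtain ⟨a, b, ha, hb, hab, hab2, hrec⟩ := rcr N (by omega)
      push_cast at hab2
      have har : (N : ℝ) < 3 * a := by exact_mod_cast ha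
      have hbr : (N : ℝ) < 3 * b := by exact_mod_cast hb
      have h16 : 16 * Real.sqrt N ≤ N / 3 := by nlinarith
      have haN : a < N := by
        have : (a : ℝ) < N := by linarith
        exact_mod_cast this
      have hbN : b < N := by
        have : (b : ℝ) < N := by linarith
        exact_mod_cast this
      have iha := ih a haN (by omega)
      have ihb := ih b hbN (by omega)
      have hsl := sqrt_log N a b (by omega) ha hb hab
      have hlog : 11 ≤ Real.log N := by
        rw [Real.le_log_iff_exp_le (by linarith)]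
        linarith [A1Aux.exp11]
      have hkey : 4800000 * Real.sqrt N ≤ 460000 * (Real.sqrt N * Real.log N) := by
        nlinarith [mul_le_mul_of_nonneg_left hlog hs0]
      nlinarith

theorem lin_bound {L : ℕ → ℝ} (triv : ∀ n : ℕ, 1 ≤ n → L n ≤ (n : ℝ) ^ 2)
    (rcr : ∀ N : ℕ, 2 ≤ N → ∃ a b : ℕ, N < 3 * a ∧ N < 3 * b ∧ N ≤ a + b ∧
      ((a + b : ℕ) : ℝ) ≤ N + 16 * Real.sqrt N ∧ L N ≤ L a + L b) (n : ℕ) (hn : 1 ≤ n) :
    L n ≤ 300000 * n := by
  by_cases h : 20000 ≤ n
  · have h1 := EdgeAAux.main triv rcr n h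
    have h2 : 0 ≤ Real.sqrt n * Real.log n :=
      mul_nonneg (Real.sqrt_nonneg _) (Real.log_natCast_nonneg n)
    linarith
  · have h1 := triv n hn
    have h2 : (n : ℝ) ≤ 20000 := by
      exact_mod_cast (by omega : n ≤ 20000)
    have h3 : (0 : ℝ) ≤ n := Nat.cast_nonneg n
    nlinarith

end K5F
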