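import Pool.Agent.Lib.K5F.EdgeA
import Pool.Agent.Lib.P512.Sep
import Pool.Agent.Lib.P512.Trans
import Pool.Agent.Lib.K5.BDefs

/-!
# K5F.EdgeB: the number of edges of a graph without a `K_5` minor is linear

`mx n`: the largest value of `dg G S` (twice the number of edges of `G` inside `S`) over the graphs without a `K_5` minor and the sets `S` with `n` elements.
The separation theorem P512.separation gives `mx N ≤ mx a + mx b` with `a + b ≤ N + 16 √N` and `N < 3 a, 3 b`.
-/

namespace K5F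

open Finset K5

/-- The values of `dg G S` for the sets with `n` elements. -/
def vals (n : ℕ) : Set ℕ := {k | ∃ (S : Finset ℕ) (G : Gr), S.card = n ∧ Free G ∧ dg G S = k}

noncomputable def mx (n : ℕ) : ℕ := sSup (vals n)

namespace EdgeBAux

theorem dg_le_sq (G : Gr) (S : Finset ℕ) : dg G S ≤ S.card ^ 2 := by
  classical
  unfold dg
  calc ∑ a ∈ S, (S.filter (fun b => G.Adj a b)).card ≤ ∑ _a ∈ S, S.card :=
        Finset.sum_le_sum (fun a _ => Finset.card_filter_le _ _)
    _ = S.card ^ 2 := by rw [Finset.sum_const, smul_eq_mul, sq]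

theorem bdd (n : ℕ) : BddAbove (vals n) := by
  refine ⟨n ^ 2, ?_⟩
  rintro k ⟨S, G, hS, -, rfl⟩
  rw [← hS]
  exact dg_le_sq G S

theorem free_bot : Free (⊥ : Gr) := by
  rintro ⟨B, hB⟩
  obtain ⟨u, -, v, -, h⟩ := hB.2.2 0 1 (by decide)
  exact h

theorem nonempty (n : ℕ) : (vals n).Nonempty :=
  ⟨_, Finset.range n, ⊥, Finset.card_range n, free_bot, rfl⟩

theorem le_mx {G : Gr} (hG : Free G) (S : Finset ℕ) : dg G S ≤ mx S.card :=
  le_csSup (bdd _) ⟨S, G, rfl, hG, rfl⟩

theorem exists_mx (n : ℕ) : ∃ (S : Finset ℕ) (G : Gr), S.card = n ∧ Free G ∧ dg G S = mx n :=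
  Nat.sSup_mem (nonempty n) (bdd n)

/-- `dg` as the number of adjacent pairs. -/
theorem dg_eq (G : Gr) [DecidableRel G.Adj] (S : Finset ℕ) :
    dg G S = ((S ×ˢ S).filter (fun p => G.Adj p.1 p.2)).card := by
  classical
  unfold dg
  rw [Finset.card_filter, Finset.sum_product]
  refine Finset.sum_congr rfl (fun a _ => ?_)
  rw [Finset.card_filter]
  refine Finset.sum_congr rfl (fun b _ => ?_)
  congr

theorem dg_mono (G : Gr) {S T : Finset ℕ} (h : S ⊆ T) : dg G S ≤ dg G T := by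
  classical
  rw [dg_eq, dg_eq]
  refine Finset.card_le_card (fun p hp => ?_)
  rw [Finset.mem_filter, Finset.mem_product] at hp ⊢
  exact ⟨⟨h hp.1.1, h hp.1.2⟩, hp.2⟩

theorem mx_mono (n : ℕ) : mx n ≤ mx (n + 1) := by
  obtain ⟨S, G, hS, hG, h⟩ := exists_mx n
  obtain ⟨w, hw⟩ := Infinite.exists_notMem_finset S
  have h1 := le_mx hG (insert w S)
  rw [Finset.card_insert_of_notMem hw, hS] at h1
  rw [← h]
  exact (dg_mono G (Finset.subset_insert w S)).trans h1

theorem dg_split (G : Gr) {S S1 S2 : Finset ℕ}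
    (h : ∀ u ∈ S, ∀ v ∈ S, G.Adj u v → (u ∈ S1 ∧ v ∈ S1) ∨ (u ∈ S2 ∧ v ∈ S2)) :
    dg G S ≤ dg G S1 + dg G S2 := by
  classical
  rw [dg_eq, dg_eq, dg_eq]
  refine le_trans (Finset.card_le_card (t := ((S1 ×ˢ S1).filter (fun p => G.Adj p.1 p.2)) ∪
    ((S2 ×ˢ S2).filter (fun p => G.Adj p.1 p.2))) (fun p hp => ?_)) (Finset.card_union_le _ _)
  rw [Finset.mem_filter, Finset.mem_product] at hp
  rw [Finset.mem_union, Finset.mem_filter, Finset.mem_filter, Finset.mem_product,
    Finset.mem_product]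
  rcases h p.1 hp.1.1 p.2 hp.1.2 hp.2 with h1 | h1
  · exact Or.inl ⟨h1, hp.2⟩
  · exact Or.inr ⟨h1, hp.2⟩

theorem rcr (N : ℕ) (hN : 2 ≤ N) : ∃ a b : ℕ, N < 3 * a ∧ N < 3 * b ∧ N ≤ a + b ∧
    ((a + b : ℕ) : ℝ) ≤ N + 16 * Real.sqrt N ∧ (mx N : ℝ) ≤ mx a + mx b := by
  classical
  obtain ⟨S, G, hS, hG, h⟩ := exists_mx N
  let f : {v // v ∈ S} ↪ ℕ := Function.Embedding.subtype _
  have hc : Fintype.card {v // v ∈ S} = N := by rw [Fintype.card_coe, hS]
  have hG' : ¬ P512.K5 (G.comap f) := by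
    intro h5
    obtain ⟨B, hB, _⟩ := (P512.k5_comap G f).1 h5
    exact hG ⟨B, hB⟩
  obtain ⟨X, A, hd, hX, hA, hA', hout⟩ := P512.separation (G.comap f) hG' (by rw [hc]; omega)
  rw [hc] at hX hA hA'
  have hxa : X.card + A.card ≤ N := by
    rw [← hc, ← Finset.card_union_of_disjoint hd.symm]
    exact Finset.card_le_univ _
  refine ⟨X.card + A.card + 1, N - A.card + 1, by omega, by omega, by omega, ?_, ?_⟩
  · have e1 : X.card + A.card + 1 + (N - A.card + 1) = N + X.card + 2 := by omega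
    rw [e1]
    push_cast
    have e2 : (1 : ℝ) ≤ Real.sqrt N := by
      apply Real.le_sqrt_of_sq_le
      have : (2 : ℝ) ≤ N := by exact_mod_cast hN
      linarith
    linarith
  · have e1 : dg G S ≤ dg G ((X ∪ A).map f) + dg G (Aᶜ.map f) := by
      refine dg_split G (fun u hu v hv huv => ?_)
      have huv' : (G.comap f).Adj ⟨u, hu⟩ ⟨v, hv⟩ := huv
      have mem1 : ∀ (w : ℕ) (hw : w ∈ S) (T : Finset {v // v ∈ S}), (⟨w, hw⟩ : {v // v ∈ S}) ∈ T →
          w ∈ T.map f := fun w hw T hT => Finset.mem_map.2 ⟨⟨w, hw⟩, hT, rfl⟩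
      by_cases h1 : (⟨u, hu⟩ : {v // v ∈ S}) ∈ A
      · left
        refine ⟨mem1 u hu _ (Finset.mem_union_right _ h1), mem1 v hv _ ?_⟩
        rcases hout _ h1 _ huv' with h2 | h2
        · exact Finset.mem_union_right _ h2
        · exact Finset.mem_union_left _ h2
      · by_cases h2 : (⟨v, hv⟩ : {v // v ∈ S}) ∈ A
        · left
          refine ⟨mem1 u hu _ ?_, mem1 v hv _ (Finset.mem_union_right _ h2)⟩
          rcases hout _ h2 _ huv'.symm with h3 | h3
          · exact Finset.mem_union_right _ h3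
          · exact Finset.mem_union_left _ h3
        · right
          exact ⟨mem1 u hu _ (Finset.mem_compl.2 h1), mem1 v hv _ (Finset.mem_compl.2 h2)⟩
    have e2 := le_mx hG ((X ∪ A).map f)
    have e3 := le_mx hG (Aᶜ.map f)
    rw [Finset.card_map, Finset.card_union_of_disjoint hd.symm] at e2
    rw [Finset.card_map, Finset.card_compl, hc] at e3
    have e4 := mx_mono (X.card + A.card)
    have e5 := mx_mono (N - A.card)
    rw [h] at e1
    have e6 : mx N ≤ mx (X.card + A.card + 1) + mx (N - A.card + 1) := by omega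
    exact_mod_cast e6

end EdgeBAux

open EdgeBAux

/-- The number of edges of a graph without a `K_5` minor inside a set `S` is at most
`150000 * |S|`. -/
theorem dg_lin {G : Gr} (hG : Free G) {S : Finset ℕ} (hS : S.Nonempty) :
    dg G S ≤ 300000 * S.card := by
  have h1 := lin_bound (L := fun n => (mx n : ℝ)) (fun n _ => ?_) (fun N hN => rcr N hN) S.card
    (Finset.card_pos.2 hS)
  · have h2 : mx S.card ≤ 300000 * S.card := by exact_mod_cast h1
    exact (le_mx hG S).trans h2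
  · obtain ⟨T, H, hT, -, h⟩ := exists_mx n
    have h2 := dg_le_sq H T
    rw [h, hT] at h2
    exact_mod_cast h2

end K5F
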