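import Pool.Agent.Lib.K5F.Defs
import Pool.Agent.Lib.K5T.Ser

/-!
# K5F.Series: sums of monomials with coefficients in `ENNReal`, as real functions

`cont_tsum`: continuity on `[0, d]` if the value at `d` is finite.  `T0r_cont`: the case of `T0`.
`ser_real`: a power series in `ENNReal`, finite at `d`, is a real power series on `[0, d]`, continuous there, differentiable inside.
-/

set_option autoImplicit false

namespace K5F

open Set K5
open scoped ENNReal

section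

variable {ι : Type*} {c : ι → ℝ≥0∞} {k : ι → ℕ} {d : ℝ}

theorem tsum_mono {z w : ℝ≥0∞} (hzw : z ≤ w) :
    ∑' i, c i * z ^ k i ≤ ∑' i, c i * w ^ k i :=
  ENNReal.tsum_le_tsum fun i => by gcongr

theorem tsum_fin (h : ∑' i, c i * (ENNReal.ofReal d) ^ k i ≠ ⊤) {z : ℝ} (hz : z ≤ d) :
    ∑' i, c i * (ENNReal.ofReal z) ^ k i ≠ ⊤ :=
  ne_top_of_le_ne_top h (tsum_mono (ENNReal.ofReal_le_ofReal hz))

theorem coef_fin (hd : 0 < d) (h : ∑' i, c i * (ENNReal.ofReal d) ^ k i ≠ ⊤) (i : ι) :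
    c i ≠ ⊤ := by
  intro hc
  have h1 := ENNReal.ne_top_of_tsum_ne_top h i
  rw [hc] at h1
  exact h1 (ENNReal.top_mul (pow_ne_zero _ (ENNReal.ofReal_pos.2 hd).ne'))

theorem tsum_toReal (hd : 0 < d) (h : ∑' i, c i * (ENNReal.ofReal d) ^ k i ≠ ⊤) {z : ℝ}
    (hz : 0 ≤ z) : (∑' i, c i * (ENNReal.ofReal z) ^ k i).toReal = ∑' i, (c i).toReal * z ^ k i := by
  rw [ENNReal.tsum_toReal_eq]
  · refine tsum_congr fun i => ?_
    rw [ENNReal.toReal_mul, ENNReal.toReal_pow, ENNReal.toReal_ofReal hz]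
  · intro i
    exact ENNReal.mul_ne_top (coef_fin hd h i) (ENNReal.pow_ne_top ENNReal.ofReal_ne_top)

theorem summable_real (hd : 0 < d) (h : ∑' i, c i * (ENNReal.ofReal d) ^ k i ≠ ⊤) :
    Summable fun i => (c i).toReal * d ^ k i := by
  have h1 := ENNReal.summable_toReal h
  refine h1.congr fun i => ?_
  rw [ENNReal.toReal_mul, ENNReal.toReal_pow, ENNReal.toReal_ofReal hd.le]

theorem cont_tsum (h : ∑' i, c i * (ENNReal.ofReal d) ^ k i ≠ ⊤) :
    ContinuousOn (fun z : ℝ => (∑' i, c i * (ENNReal.ofReal z) ^ k i).toReal) (Icc 0 d) := by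
  rcases le_or_gt d 0 with hd | hd
  · refine Set.Subsingleton.continuousOn ?_ _
    intro a ha b hb
    have h1 : a = 0 := le_antisymm (ha.2.trans hd) ha.1
    have h2 : b = 0 := le_antisymm (hb.2.trans hd) hb.1
    rw [h1, h2]
  · have hs := summable_real hd h
    have h1 : ContinuousOn (fun z : ℝ => ∑' i, (c i).toReal * z ^ k i) (Icc 0 d) := by
      refine continuousOn_tsum (fun i => ?_) hs ?_
      · exact (continuous_const.mul (continuous_pow _)).continuousOn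
      · intro i z hz
        rw [Real.norm_eq_abs, abs_of_nonneg (mul_nonneg ENNReal.toReal_nonneg (pow_nonneg hz.1 _))]
        exact mul_le_mul_of_nonneg_left (pow_le_pow_left₀ hz.1 hz.2 _) ENNReal.toReal_nonneg
    refine h1.congr fun z hz => ?_
    exact tsum_toReal hd h hz.1

end

theorem ser_fr {c : ℕ → ℝ≥0∞} {d : ℝ} (hd : 0 < d)
    (h : ∑' m, c m * (ENNReal.ofReal d) ^ m ≠ ⊤) {z : ℝ} (hz : 0 ≤ z) :
    (∑' m, c m * (ENNReal.ofReal z) ^ m).toReal = K5T.fr (fun m => (c m).toReal) z :=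
  tsum_toReal (k := fun m => m) hd h hz

theorem fr_diff {a : ℕ → ℝ} {X : ℝ} (ha : ∀ n, 0 ≤ a n)
    (hs : Summable (fun n : ℕ => a n * X ^ n)) {y : ℝ} (hy : 0 ≤ y) (hyX : y < X) :
    DifferentiableAt ℝ (K5T.fr a) y := by
  have h1 : AnalyticAt ℂ (K5T.fn a) (y : ℂ) :=
    K5T.analyticAt_fn ha hs (by rw [Complex.norm_real, Real.norm_eq_abs, abs_of_nonneg hy]; exact hyX)
  have h2 := (h1.differentiableAt.hasDerivAt).real_of_complex
  have h3 : (fun x : ℝ => (K5T.fn a (x : ℂ)).re) = K5T.fr a := by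
    funext x
    rw [K5T.fn_ofReal, Complex.ofReal_re]
  rw [h3] at h2
  exact h2.differentiableAt

theorem ser_diff {c : ℕ → ℝ≥0∞} {d : ℝ} (hd : 0 < d)
    (h : ∑' m, c m * (ENNReal.ofReal d) ^ m ≠ ⊤) {y : ℝ} (hy : y ∈ Ioo 0 d) :
    DifferentiableAt ℝ (fun z : ℝ => (∑' m, c m * (ENNReal.ofReal z) ^ m).toReal) y := by
  have h1 : DifferentiableAt ℝ (K5T.fr (fun m => (c m).toReal)) y :=
    fr_diff (fun n => ENNReal.toReal_nonneg) (summable_real (k := fun m => m) hd h) hy.1.le hy.2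
  refine h1.congr_of_eventuallyEq ?_
  filter_upwards [Ioo_mem_nhds hy.1 hy.2] with z hz
  exact ser_fr hd h hz.1.le

/-! ### `T0` -/

theorem T0_sigma (x z : ℝ≥0∞) :
    T0 x z = ∑' p : (Σ n : ℕ, {G : Gr // Rtd {0, 1} (Finset.Ico 2 (n + 2)) G}),
      (x ^ p.1 / (p.1.factorial : ℝ≥0∞)) * z ^ ecard {0, 1} p.2.1 := by
  unfold T0
  rw [ENNReal.tsum_sigma']
  exact tsum_congr fun n => ENNReal.tsum_mul_left.symm

theorem T0_fin {x z w : ℝ≥0∞} (h : T0 x w ≠ ⊤) (hzw : z ≤ w) : T0 x z ≠ ⊤ := by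
  rw [T0_sigma] at h ⊢
  exact ne_top_of_le_ne_top h (tsum_mono hzw)

theorem T0r_cont {x d : ℝ} (h : T0 (.ofReal x) (.ofReal d) ≠ ⊤) :
    ContinuousOn (T0r x) (Icc 0 d) := by
  have h1 := h
  rw [T0_sigma] at h1
  refine (cont_tsum h1).congr fun z _ => ?_
  show (T0 (.ofReal x) (.ofReal z)).toReal = _
  rw [T0_sigma]

theorem T0r_nonneg (x z : ℝ) : 0 ≤ T0r x z := ENNReal.toReal_nonneg

end K5F
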