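import Pool.Agent.Lib.K5F.Calc
import Pool.Agent.Lib.K5F.Series
import Pool.Agent.Lib.K5.BStrN

/-!
# K5F.F1: the generating function of the blocks as an integral over the network variable

`Hyp`: the outputs of the chapters K5E (E1, E2).  `B_real`: for `0 < x` with `D x` finite
`B(x) = x^2/2 * (d - (1 + d) * log ((1 + d)/2) + ∫ z in 0..d, (x z^2/(1 + x z) + T0 x z))`, `d = D x`.
-/

set_option autoImplicit false

namespace K5F

open Set K5 MeasureTheory intervalIntegral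
open scoped ENNReal

/-- The outputs of the chapters on the edge weights. -/
structure Hyp : Prop where
  ser : ∀ x : ℝ≥0∞, ∃ c : ℕ → ℝ≥0∞, c 0 = 0 ∧ ∀ y, Dy x y = ∑' m, c m * y ^ m
  one : ∀ x : ℝ≥0∞, Dy x 1 = D x
  qy : ∀ x y : ℝ≥0∞, 1 + Dy x y = (1 + y) * egf (Qy y) x
  eq : ∀ x y : ℝ, 0 < x → 0 ≤ y → Dy (.ofReal x) (.ofReal y) ≠ ⊤ →
    ∃ z : ℝ, 0 ≤ z ∧ Dy (.ofReal x) (.ofReal y) = .ofReal z ∧
      0 ≤ Real.log ((1 + z) / (1 + y)) - x * z ^ 2 / (1 + x * z) ∧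
      T0 (.ofReal x) (.ofReal z) =
        .ofReal (Real.log ((1 + z) / (1 + y)) - x * z ^ 2 / (1 + x * z))
  blk : ∀ x : ℝ≥0∞, (∑' n : ℕ, x ^ (n + 1) / ((n + 1).factorial : ℝ≥0∞) * bE n) =
    x ^ 2 / 2 * ∫⁻ y in Set.Icc (0 : ℝ) 1, egf (Qy (ENNReal.ofReal y)) x

/-- `U + T0`. -/
noncomputable def Sr (x z : ℝ) : ℝ := x * z ^ 2 / (1 + x * z) + T0r x z

section

variable {x : ℝ}

theorem dr_nonneg (x : ℝ) : 0 ≤ dr x := ENNReal.toReal_nonneg

theorem dyr_nonneg (x y : ℝ) : 0 ≤ dyr x y := ENNReal.toReal_nonneg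

theorem Sr_cont {d : ℝ} (hx : 0 < x) (h : T0 (.ofReal x) (.ofReal d) ≠ ⊤) :
    ContinuousOn (Sr x) (Icc 0 d) := by
  refine ContinuousOn.add ?_ (T0r_cont h)
  refine ContinuousOn.div (by fun_prop) (by fun_prop) ?_
  intro z hz
  have : 0 < 1 + x * z := by
    have := mul_nonneg hx.le hz.1
    linarith
  exact this.ne'

namespace Hyp

variable (h : Hyp)
include h

theorem dy_mono {a b : ℝ≥0∞} (x : ℝ≥0∞) (hab : a ≤ b) : Dy x a ≤ Dy x b := by
  obtain ⟨c, -, hc⟩ := h.ser x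
  rw [hc, hc]
  exact tsum_mono hab

theorem dy_fin (hD : D (.ofReal x) ≠ ⊤) {y : ℝ} (hy : y ≤ 1) :
    Dy (.ofReal x) (.ofReal y) ≠ ⊤ := by
  rw [← h.one] at hD
  refine ne_top_of_le_ne_top hD (h.dy_mono _ ?_)
  rw [← ENNReal.ofReal_one]
  exact ENNReal.ofReal_le_ofReal hy

theorem dyr_mono (hD : D (.ofReal x) ≠ ⊤) : MonotoneOn (dyr x) (Icc 0 1) := by
  intro a _ b hb hab
  exact ENNReal.toReal_mono (h.dy_fin hD hb.2) (h.dy_mono _ (ENNReal.ofReal_le_ofReal hab))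

theorem dyr_zero (x : ℝ) : dyr x 0 = 0 := by
  obtain ⟨c, h0, hc⟩ := h.ser (.ofReal x)
  unfold dyr
  rw [hc, ENNReal.ofReal_zero, tsum_eq_single 0]
  · rw [h0, zero_mul, ENNReal.toReal_zero]
  · intro m hm
    rw [zero_pow hm, mul_zero]

theorem dyr_one (x : ℝ) : dyr x 1 = dr x := by
  unfold dyr dr
  rw [ENNReal.ofReal_one, h.one]

theorem dyr_cont (hD : D (.ofReal x) ≠ ⊤) : ContinuousOn (dyr x) (Icc 0 1) := by
  obtain ⟨c, -, hc⟩ := h.ser (.ofReal x)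
  have h1 : ∑' m, c m * (ENNReal.ofReal 1) ^ m ≠ ⊤ := by
    rw [← hc]
    exact h.dy_fin hD le_rfl
  refine (cont_tsum (k := fun m => m) h1).congr fun y _ => ?_
  unfold dyr
  rw [hc]

theorem dyr_diff (hD : D (.ofReal x) ≠ ⊤) {y : ℝ} (hy : y ∈ Ioo (0 : ℝ) 1) :
    DifferentiableAt ℝ (dyr x) y := by
  obtain ⟨c, -, hc⟩ := h.ser (.ofReal x)
  have h1 : ∑' m, c m * (ENNReal.ofReal 1) ^ m ≠ ⊤ := by
    rw [← hc]
    exact h.dy_fin hD le_rfl
  have h2 := ser_diff one_pos h1 hy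
  have h3 : dyr x = fun z : ℝ => (∑' m, c m * (ENNReal.ofReal z) ^ m).toReal := by
    funext z
    unfold dyr
    rw [hc]
  rw [h3]
  exact h2

/-- The equation of the networks. -/
theorem eq_real (hx : 0 < x) (hD : D (.ofReal x) ≠ ⊤) {y : ℝ} (hy : y ∈ Icc (0 : ℝ) 1) :
    Real.log ((1 + dyr x y) / (1 + y)) = Sr x (dyr x y) ∧
      T0 (.ofReal x) (.ofReal (dyr x y)) ≠ ⊤ := by
  obtain ⟨z, hz, h1, h2, h3⟩ := h.eq x y hx hy.1 (h.dy_fin hD hy.2)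
  have h4 : dyr x y = z := by
    unfold dyr
    rw [h1, ENNReal.toReal_ofReal hz]
  rw [h4]
  refine ⟨?_, by rw [h3]; exact ENNReal.ofReal_ne_top⟩
  unfold Sr T0r
  rw [h3, ENNReal.toReal_ofReal h2]
  ring

theorem T0_fin_dr (hx : 0 < x) (hD : D (.ofReal x) ≠ ⊤) :
    T0 (.ofReal x) (.ofReal (dr x)) ≠ ⊤ := by
  rw [← h.dyr_one x]
  exact (h.eq_real hx hD (right_mem_Icc.2 zero_le_one)).2

theorem eq_one (hx : 0 < x) (hD : D (.ofReal x) ≠ ⊤) :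
    Real.log ((1 + dr x) / 2) = Sr x (dr x) := by
  have h1 := (h.eq_real hx hD (right_mem_Icc.2 zero_le_one)).1
  rw [h.dyr_one x] at h1
  rw [← h1]
  norm_num

theorem T0r_cont_dr (hx : 0 < x) (hD : D (.ofReal x) ≠ ⊤) :
    ContinuousOn (T0r x) (Icc 0 (dr x)) := T0r_cont (h.T0_fin_dr hx hD)

theorem int_dyr (hx : 0 < x) (hD : D (.ofReal x) ≠ ⊤) :
    ∫ y in (0 : ℝ)..1, (1 + dyr x y) / (1 + y) =
      dr x - (1 + dr x) * Real.log ((1 + dr x) / 2) + ∫ z in (0 : ℝ)..dr x, Sr x z := by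
  have h1 := int_formula (h.dyr_cont hD) (fun y hy => h.dyr_diff hD hy) (h.dyr_zero x)
    (h.dyr_mono hD) (S := Sr x) (by rw [h.dyr_one x]; exact Sr_cont hx (h.T0_fin_dr hx hD))
    (fun y hy => (h.eq_real hx hD hy).1)
  rw [h.dyr_one x] at h1
  exact h1

theorem qy_real (hD : D (.ofReal x) ≠ ⊤) {y : ℝ} (hy : y ∈ Icc (0 : ℝ) 1) :
    egf (Qy (ENNReal.ofReal y)) (.ofReal x) = .ofReal ((1 + dyr x y) / (1 + y)) := by
  have h1 := h.qy (.ofReal x) (.ofReal y)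
  have h2 : Dy (.ofReal x) (.ofReal y) = .ofReal (dyr x y) :=
    (ENNReal.ofReal_toReal (h.dy_fin hD hy.2)).symm
  have h3 : (0 : ℝ) < 1 + y := by linarith [hy.1]
  have h4 : (1 : ℝ≥0∞) + ENNReal.ofReal y = ENNReal.ofReal (1 + y) := by
    rw [ENNReal.ofReal_add zero_le_one hy.1, ENNReal.ofReal_one]
  have h5 : (1 : ℝ≥0∞) + ENNReal.ofReal (dyr x y) = ENNReal.ofReal (1 + dyr x y) := by
    rw [ENNReal.ofReal_add zero_le_one (dyr_nonneg x y), ENNReal.ofReal_one]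
  rw [h2, h4, h5] at h1
  rw [ENNReal.ofReal_div_of_pos h3, h1, mul_comm, ENNReal.mul_div_cancel_right]
  · exact (ENNReal.ofReal_pos.2 h3).ne'
  · exact ENNReal.ofReal_ne_top

theorem cont_quot (hD : D (.ofReal x) ≠ ⊤) :
    ContinuousOn (fun y => (1 + dyr x y) / (1 + y)) (Icc (0 : ℝ) 1) := by
  refine (continuousOn_const.add (h.dyr_cont hD)).div (by fun_prop) ?_
  intro y hy
  have : 0 < 1 + y := by linarith [hy.1]
  exact this.ne'

theorem lint (hD : D (.ofReal x) ≠ ⊤) :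
    ∫⁻ y in Set.Icc (0 : ℝ) 1, egf (Qy (ENNReal.ofReal y)) (.ofReal x) =
      .ofReal (∫ y in (0 : ℝ)..1, (1 + dyr x y) / (1 + y)) := by
  have h1 : ∫⁻ y in Set.Icc (0 : ℝ) 1, egf (Qy (ENNReal.ofReal y)) (.ofReal x) =
      ∫⁻ y in Set.Icc (0 : ℝ) 1, ENNReal.ofReal ((1 + dyr x y) / (1 + y)) :=
    setLIntegral_congr_fun measurableSet_Icc fun y hy => h.qy_real hD hy
  rw [h1, intervalIntegral.integral_of_le zero_le_one, ← integral_Icc_eq_integral_Ioc]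
  have h2 : IntegrableOn (fun y => (1 + dyr x y) / (1 + y)) (Icc (0 : ℝ) 1) :=
    (h.cont_quot hD).integrableOn_Icc
  rw [ofReal_integral_eq_lintegral_ofReal h2]
  refine (ae_restrict_iff' measurableSet_Icc).2 (Filter.Eventually.of_forall fun y hy => ?_)
  exact div_nonneg (by linarith [dyr_nonneg x y]) (by linarith [hy.1])

/-- The generating function of the blocks. -/
theorem B_enn (hx : 0 < x) (hD : D (.ofReal x) ≠ ⊤) :
    (∑' n : ℕ, (ENNReal.ofReal x) ^ (n + 1) / ((n + 1).factorial : ℝ≥0∞) * bE n) =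
      .ofReal (x ^ 2 / 2 * (dr x - (1 + dr x) * Real.log ((1 + dr x) / 2) +
        ∫ z in (0 : ℝ)..dr x, Sr x z)) := by
  rw [h.blk, h.lint hD, h.int_dyr hx hD, ENNReal.ofReal_mul (by positivity),
    ENNReal.ofReal_div_of_pos two_pos, ENNReal.ofReal_pow hx.le]
  norm_num

end Hyp

/-! ### Passage to the coefficients `Bc` -/

theorem Bc_nonneg (n : ℕ) : 0 ≤ Bc n := by
  unfold Bc
  positivity

theorem Bc_zero : Bc 0 = 0 := by
  unfold Bc
  rw [Nat.zero_sub, bC_zero]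
  simp

theorem Bc_term (hx : 0 ≤ x) (n : ℕ) :
    (ENNReal.ofReal x) ^ (n + 1) / ((n + 1).factorial : ℝ≥0∞) * bE n =
      .ofReal (Bc (n + 1) * x ^ (n + 1)) := by
  have h1 : (0 : ℝ) < ((n + 1).factorial : ℝ) := by exact_mod_cast Nat.factorial_pos _
  have h2 : Bc (n + 1) * x ^ (n + 1) = x ^ (n + 1) / ((n + 1).factorial : ℝ) * (bC n : ℝ) := by
    unfold Bc
    rw [Nat.add_sub_cancel]
    ring
  rw [h2, ENNReal.ofReal_mul (by positivity), ENNReal.ofReal_div_of_pos h1,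
    ENNReal.ofReal_pow hx, ENNReal.ofReal_natCast, ENNReal.ofReal_natCast]
  rfl

theorem hasSum_of_enn {A : ℝ} (hx : 0 ≤ x) (hA : 0 ≤ A)
    (h : (∑' n : ℕ, (ENNReal.ofReal x) ^ (n + 1) / ((n + 1).factorial : ℝ≥0∞) * bE n) =
      .ofReal A) : HasSum (fun n : ℕ => Bc n * x ^ n) A := by
  have h0 : ∀ n : ℕ, 0 ≤ Bc (n + 1) * x ^ (n + 1) := fun n =>
    mul_nonneg (Bc_nonneg _) (pow_nonneg hx _)
  have h1 : (∑' n : ℕ, ENNReal.ofReal (Bc (n + 1) * x ^ (n + 1))) = .ofReal A := by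
    rw [← h]
    exact tsum_congr fun n => (Bc_term hx n).symm
  have hs : Summable fun n : ℕ => Bc (n + 1) * x ^ (n + 1) := by
    have h2 : (∑' n : ℕ, ENNReal.ofReal (Bc (n + 1) * x ^ (n + 1))) ≠ ⊤ := by
      rw [h1]
      exact ENNReal.ofReal_ne_top
    refine (ENNReal.summable_toReal h2).congr fun n => ?_
    rw [ENNReal.toReal_ofReal (h0 n)]
  rw [← ENNReal.ofReal_tsum_of_nonneg h0 hs] at h1
  have h2 : ∑' n : ℕ, Bc (n + 1) * x ^ (n + 1) = A :=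
    (ENNReal.ofReal_eq_ofReal_iff (tsum_nonneg h0) hA).1 h1
  have h3 : HasSum (fun n : ℕ => Bc (n + 1) * x ^ (n + 1)) A := by
    rw [← h2]
    exact hs.hasSum
  have h4 := (hasSum_nat_add_iff (f := fun n : ℕ => Bc n * x ^ n) 1).1 h3
  simpa [Bc_zero] using h4

theorem Hyp.val_nonneg (h : Hyp) (hx : 0 < x) (hD : D (.ofReal x) ≠ ⊤) :
    0 ≤ x ^ 2 / 2 * (dr x - (1 + dr x) * Real.log ((1 + dr x) / 2) +
      ∫ z in (0 : ℝ)..dr x, Sr x z) := by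
  rw [← h.int_dyr hx hD]
  refine mul_nonneg (by positivity) ?_
  refine intervalIntegral.integral_nonneg zero_le_one fun y hy => ?_
  exact div_nonneg (by linarith [dyr_nonneg x y]) (by linarith [hy.1])

/-- The generating function of the blocks as an integral over the network variable. -/
theorem Hyp.B_real (h : Hyp) (hx : 0 < x) (hD : D (.ofReal x) ≠ ⊤) :
    HasSum (fun n : ℕ => Bc n * x ^ n)
      (x ^ 2 / 2 * (dr x - (1 + dr x) * Real.log ((1 + dr x) / 2) +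
        ∫ z in (0 : ℝ)..dr x, (x * z ^ 2 / (1 + x * z) + T0r x z))) :=
  hasSum_of_enn hx.le (h.val_nonneg hx hD) (h.B_enn hx hD)

theorem Hyp.B_fr (h : Hyp) (hx : 0 < x) (hD : D (.ofReal x) ≠ ⊤) :
    K5T.fr Bc x = x ^ 2 / 2 * (dr x - (1 + dr x) * Real.log ((1 + dr x) / 2) +
        ∫ z in (0 : ℝ)..dr x, (x * z ^ 2 / (1 + x * z) + T0r x z)) :=
  (h.B_real hx hD).tsum_eq

end

end K5F
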