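import Pool.Agent.Lib.K5T.Ser
import Pool.Agent.Lib.K5T.Loc

/-!
# K5F.HSeg: series with nonnegative coefficients that are analytic in `√(1 - x/R)` near `R`

`Sg R a h`: the coefficients `a n` are nonnegative, the series converges on `[0, R)`, `h` is analytic at `0` and `∑ a n x^n = h (√(1 - x/R))` for real `x < R` near `R`.
`Sg.cplx`: the same for complex `x` in the disc near `R` (identity theorem).
`Sg.sum_R`: the series converges at `R` and has the value `h 0`.
`Sg.deriv_zero`, `Sg.sum_deriv`: `h' (0) = 0` if and only if `∑ n a n R^n` converges.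
`Sg.step`: then the derivative of the series has the same property, with the function `st R h`.
-/

namespace K5F

open Filter Topology Metric Asymptotics K5T

/-- The series with coefficients `a` is `h (√(1 - x/R))` on the real segment to the left of `R`. -/
structure Sg (R : ℝ) (a : ℕ → ℝ) (h : ℂ → ℂ) : Prop where
  pos : 0 < R
  nonneg : ∀ n, 0 ≤ a n
  sum : ∀ x, 0 ≤ x → x < R → Summable (fun n : ℕ => a n * x ^ n)
  an : AnalyticAt ℂ h 0
  eq : ∀ᶠ x in 𝓝[<] R, (fr a x : ℂ) = h ((Real.sqrt (1 - x / R) : ℝ) : ℂ)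

namespace HSegAux

theorem sqrt_pos {R x : ℝ} (hR : 0 < R) (hx : x < R) : 0 < Real.sqrt (1 - x / R) := by
  apply Real.sqrt_pos.2
  have : x / R < 1 := (div_lt_one hR).2 hx
  linarith

theorem sqrt_sq' {R x : ℝ} (hR : 0 < R) (hx : x < R) :
    R * Real.sqrt (1 - x / R) ^ 2 = R - x := by
  have : x / R < 1 := (div_lt_one hR).2 hx
  rw [Real.sq_sqrt (by linarith)]
  field_simp

theorem tendsto_sqrt {R : ℝ} (hR : 0 < R) :
    Tendsto (fun x : ℝ => Real.sqrt (1 - x / R)) (𝓝[<] R) (𝓝[>] 0) := by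
  refine tendsto_nhdsWithin_iff.2 ⟨?_, ?_⟩
  · have h1 : ContinuousAt (fun x : ℝ => Real.sqrt (1 - x / R)) R := by
      refine Real.continuous_sqrt.continuousAt.comp ?_
      exact continuousAt_const.sub (continuousAt_id.div_const R)
    have h2 : Tendsto (fun x : ℝ => Real.sqrt (1 - x / R)) (𝓝 R)
        (𝓝 (Real.sqrt (1 - R / R))) := h1
    rw [div_self hR.ne', sub_self, Real.sqrt_zero] at h2
    exact h2.mono_left nhdsWithin_le_nhds
  · filter_upwards [self_mem_nhdsWithin] with x hx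
    exact sqrt_pos hR hx

theorem tendsto_sqrt' {R : ℝ} (hR : 0 < R) :
    Tendsto (fun x : ℝ => ((Real.sqrt (1 - x / R) : ℝ) : ℂ)) (𝓝[<] R) (𝓝 0) := by
  have h1 := (tendsto_sqrt hR).mono_right nhdsWithin_le_nhds
  have h2 := (Complex.continuous_ofReal.tendsto 0).comp h1
  rw [Complex.ofReal_zero] at h2
  exact h2

theorem sq_real {R x : ℝ} (hR : 0 < R) (hx : x < R) :
    K5T.sq ((x : ℂ) / (R : ℂ)) = ((Real.sqrt (1 - x / R) : ℝ) : ℂ) := by
  have h1 : x / R < 1 := (div_lt_one hR).2 hx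
  have h2 : (1 - (x : ℂ) / (R : ℂ)) = ((1 - x / R : ℝ) : ℂ) := by push_cast; ring
  unfold K5T.sq
  rw [h2, Real.sqrt_eq_rpow, Complex.ofReal_cpow (by linarith)]
  norm_num

theorem sq_norm {w : ℂ} : ‖K5T.sq w‖ ^ 2 = ‖1 - w‖ := by
  rw [← norm_pow, sq_sq]

end HSegAux

open HSegAux

variable {R : ℝ} {a : ℕ → ℝ} {h : ℂ → ℂ}

theorem Sg.sum_mid (H : Sg R a h) {z : ℂ} (hz : ‖z‖ < R) :
    ∃ X, ‖z‖ < X ∧ X < R ∧ Summable (fun n : ℕ => a n * X ^ n) := by
  obtain ⟨X, h1, h2⟩ := exists_between hz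
  exact ⟨X, h1, h2, H.sum X ((norm_nonneg z).trans h1.le) h2⟩

theorem Sg.an_ball (H : Sg R a h) {z : ℂ} (hz : ‖z‖ < R) : AnalyticAt ℂ (fn a) z := by
  obtain ⟨X, h1, h2, h3⟩ := H.sum_mid hz
  exact analyticAt_fn H.nonneg h3 h1

theorem Sg.cplx (H : Sg R a h) :
    ∀ᶠ u in 𝓝[ball (0 : ℂ) R] (R : ℂ), fn a u = h (K5T.sq (u / (R : ℂ))) := by
  have hR := H.pos
  obtain ⟨δ, hδ, hδa⟩ := Metric.eventually_nhds_iff_ball.1 H.an.eventually_analyticAt
  obtain ⟨x1, hx1, hx1e⟩ := (mem_nhdsLT_iff_exists_Ioo_subset' (show (0 : ℝ) < R from hR)).1 H.eq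
  -- the radius of the neighbourhood
  set ε : ℝ := min (min (R - x1) (δ ^ 2 * R)) R with hε
  have hε0 : 0 < ε := by
    refine lt_min (lt_min (by linarith [hx1.out]) (by positivity)) hR
  have hε1 : ε ≤ R - x1 := (min_le_left _ _).trans (min_le_left _ _)
  have hε2 : ε ≤ δ ^ 2 * R := (min_le_left _ _).trans (min_le_right _ _)
  have hε3 : ε ≤ R := min_le_right _ _
  set U : Set ℂ := ball (0 : ℂ) R ∩ ball (R : ℂ) ε with hU
  have hUc : IsPreconnected U :=
    ((convex_ball (0 : ℂ) R).inter (convex_ball (R : ℂ) ε)).isPreconnected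
  have hre : ∀ u ∈ ball (0 : ℂ) R, (u / (R : ℂ)).re < 1 := by
    intro u hu
    rw [mem_ball_zero_iff] at hu
    have h1 : (u / (R : ℂ)).re ≤ ‖u / (R : ℂ)‖ := Complex.re_le_norm _
    have h2 : ‖u / (R : ℂ)‖ < 1 := by
      rw [norm_div, Complex.norm_real, Real.norm_eq_abs, abs_of_pos hR]
      exact (div_lt_one hR).2 hu
    linarith
  have hsm : ∀ u ∈ ball (R : ℂ) ε, K5T.sq (u / (R : ℂ)) ∈ ball (0 : ℂ) δ := by
    intro u hu
    rw [mem_ball, dist_eq_norm] at hu
    rw [mem_ball_zero_iff]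
    have h1 : ‖K5T.sq (u / (R : ℂ))‖ ^ 2 < δ ^ 2 := by
      rw [sq_norm]
      have h2 : (1 - u / (R : ℂ)) = -((u - R) / (R : ℂ)) := by
        have : (R : ℂ) ≠ 0 := by exact_mod_cast hR.ne'
        field_simp
        ring
      rw [h2, norm_neg, norm_div, Complex.norm_real, Real.norm_eq_abs, abs_of_pos hR,
        div_lt_iff₀ hR]
      exact hu.trans_le hε2
    exact lt_of_pow_lt_pow_left₀ 2 hδ.le h1
  have hf : AnalyticOnNhd ℂ (fn a) U := by
    intro u hu
    exact H.an_ball (mem_ball_zero_iff.1 hu.1)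
  have hg : AnalyticOnNhd ℂ (fun u => h (K5T.sq (u / (R : ℂ)))) U := by
    intro u hu
    have h1 : AnalyticAt ℂ (fun u : ℂ => K5T.sq (u / (R : ℂ))) u := by
      have h2 : AnalyticAt ℂ (fun u : ℂ => 1 - u / (R : ℂ)) u := by fun_prop
      refine h2.cpow analyticAt_const ?_
      left
      have := hre u hu.1
      simp only [Complex.sub_re, Complex.one_re]
      linarith
    exact AnalyticAt.fun_comp (hδa _ (hsm u hu.2)) h1
  -- the point on the segment
  set x0 : ℝ := R - ε / 2 with hx0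
  have hx0R : x0 < R := by linarith
  have hx00 : 0 < x0 := by linarith
  have hx0U : (x0 : ℂ) ∈ U := by
    refine ⟨?_, ?_⟩
    · rw [mem_ball_zero_iff, Complex.norm_real, Real.norm_eq_abs, abs_of_pos hx00]
      exact hx0R
    · rw [mem_ball, dist_eq_norm, ← Complex.ofReal_sub, Complex.norm_real, Real.norm_eq_abs]
      rw [abs_lt]
      constructor <;> linarith
  have hev : ∀ᶠ x : ℝ in 𝓝 x0, fn a (x : ℂ) = h (K5T.sq ((x : ℂ) / (R : ℂ))) := by
    have h1 : Set.Ioo x1 R ∈ 𝓝 x0 := Ioo_mem_nhds (by linarith) hx0R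
    filter_upwards [h1] with x hx
    rw [fn_ofReal, sq_real hR hx.2]
    exact hx1e hx
  have hfreq : ∃ᶠ z in 𝓝[≠] (x0 : ℂ), fn a z = h (K5T.sq (z / (R : ℂ))) := by
    have h1 : Tendsto (fun x : ℝ => (x : ℂ)) (𝓝[≠] x0) (𝓝[≠] (x0 : ℂ)) := by
      refine tendsto_nhdsWithin_iff.2 ⟨?_, ?_⟩
      · exact (Complex.continuous_ofReal.tendsto x0).mono_left nhdsWithin_le_nhds
      · filter_upwards [self_mem_nhdsWithin] with x hx
        simpa using hx
    have h2 : ∀ᶠ x in 𝓝[≠] x0, fn a ((x : ℝ) : ℂ) = h (K5T.sq ((x : ℂ) / (R : ℂ))) :=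
      hev.filter_mono nhdsWithin_le_nhds
    exact h1.frequently h2.frequently
  have key := hf.eqOn_of_preconnected_of_frequently_eq hg hUc hx0U hfreq
  have hUm : U ∈ 𝓝[ball (0 : ℂ) R] (R : ℂ) := by
    rw [hU]
    exact inter_mem self_mem_nhdsWithin (mem_nhdsWithin_of_mem_nhds (ball_mem_nhds _ hε0))
  filter_upwards [hUm] with u hu
  exact key hu

/-! ### The value at `R` -/

theorem Sg.tendsto (H : Sg R a h) : Tendsto (fun x : ℝ => fr a x) (𝓝[<] R) (𝓝 (h 0).re) := by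
  have h1 : Tendsto (fun x : ℝ => h ((Real.sqrt (1 - x / R) : ℝ) : ℂ)) (𝓝[<] R) (𝓝 (h 0)) :=
    (H.an.continuousAt.tendsto).comp (tendsto_sqrt' H.pos)
  have h2 : Tendsto (fun x : ℝ => (fr a x : ℂ)) (𝓝[<] R) (𝓝 (h 0)) :=
    h1.congr' (by filter_upwards [H.eq] with x hx using hx.symm)
  have h3 := (Complex.continuous_re.tendsto (h 0)).comp h2
  simpa [Function.comp_def] using h3

/-- Partial sums of a series bounded on the left of `R`. -/
theorem HSegAux.summable_of_bdd {R : ℝ} {c : ℕ → ℝ → ℝ} {d : ℕ → ℝ} (hd : ∀ n, 0 ≤ d n)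
    (hc : ∀ n, Tendsto (c n) (𝓝[<] R) (𝓝 (d n))) {M : ℝ}
    (hM : ∀ N : ℕ, ∀ᶠ x in 𝓝[<] R, ∑ n ∈ Finset.range N, c n x ≤ M) : Summable d := by
  refine summable_of_sum_range_le (c := M) hd (fun N => ?_)
  have h1 : Tendsto (fun x => ∑ n ∈ Finset.range N, c n x) (𝓝[<] R)
      (𝓝 (∑ n ∈ Finset.range N, d n)) := tendsto_finsetSum _ (fun n _ => hc n)
  exact le_of_tendsto h1 (hM N)

theorem HSegAux.ev_Ioo (hR : 0 < R) : ∀ᶠ x in 𝓝[<] R, 0 < x ∧ x < R := by
  have : Set.Ioo 0 R ∈ 𝓝[<] R := Ioo_mem_nhdsLT hR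
  filter_upwards [this] with x hx using hx

theorem Sg.sum_R (H : Sg R a h) : Summable (fun n : ℕ => a n * R ^ n) := by
  have hb : ∀ᶠ x in 𝓝[<] R, fr a x ≤ (h 0).re + 1 :=
    H.tendsto.eventually (eventually_le_nhds (by linarith))
  refine summable_of_bdd (R := R) (c := fun n x => a n * x ^ n) (M := (h 0).re + 1)
    (fun n => mul_nonneg (H.nonneg n) (pow_nonneg H.pos.le n)) (fun n => ?_) (fun N => ?_)
  · have h1 : ContinuousAt (fun x : ℝ => a n * x ^ n) R := by fun_prop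
    exact h1.tendsto.mono_left nhdsWithin_le_nhds
  · filter_upwards [hb, ev_Ioo H.pos] with x hx hx'
    refine le_trans ?_ hx
    exact (H.sum x hx'.1.le hx'.2).sum_le_tsum _
      (fun n _ => mul_nonneg (H.nonneg n) (pow_nonneg hx'.1.le n))

theorem Sg.val (H : Sg R a h) : (fr a R : ℂ) = h 0 := by
  have h1 : Tendsto (fun x : ℝ => fr a x) (𝓝[<] R) (𝓝 (fr a R)) := by
    have h2 := (continuousOn_fr H.nonneg H.sum_R) R ⟨H.pos.le, le_rfl⟩
    refine h2.tendsto.mono_left ?_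
    refine nhdsWithin_le_iff.2 ?_
    filter_upwards [ev_Ioo H.pos] with x hx
    exact ⟨hx.1.le, hx.2.le⟩
  have h3 := tendsto_nhds_unique h1 H.tendsto
  have h4 : Tendsto (fun x : ℝ => (fr a x : ℂ)) (𝓝[<] R) (𝓝 (h 0)) := by
    have h5 : Tendsto (fun x : ℝ => h ((Real.sqrt (1 - x / R) : ℝ) : ℂ)) (𝓝[<] R) (𝓝 (h 0)) :=
      (H.an.continuousAt.tendsto).comp (tendsto_sqrt' H.pos)
    exact h5.congr' (by filter_upwards [H.eq] with x hx using hx.symm)
  have h6 : Tendsto (fun x : ℝ => (fr a x : ℂ)) (𝓝[<] R) (𝓝 (fr a R : ℂ)) :=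
    (Complex.continuous_ofReal.tendsto _).comp h1
  exact tendsto_nhds_unique h6 h4

/-- `(h v - h 0) / v → h' (0)` along `v = √(1 - x/R)`. -/
theorem Sg.slope (H : Sg R a h) :
    Tendsto (fun x : ℝ => ((fr a R - fr a x) / Real.sqrt (1 - x / R) : ℝ)) (𝓝[<] R)
      (𝓝 (-(deriv h 0)).re) := by
  have h1 : HasDerivAt h (deriv h 0) 0 := H.an.differentiableAt.hasDerivAt
  have h2 := hasDerivAt_iff_tendsto_slope.1 h1
  have h3 : Tendsto (fun x : ℝ => ((Real.sqrt (1 - x / R) : ℝ) : ℂ)) (𝓝[<] R) (𝓝[≠] 0) := by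
    refine tendsto_nhdsWithin_iff.2 ⟨tendsto_sqrt' H.pos, ?_⟩
    filter_upwards [ev_Ioo H.pos] with x hx
    have := sqrt_pos H.pos hx.2
    simpa using this.ne'
  have h4 := h2.comp h3
  have h5 : Tendsto (fun x : ℝ => (((fr a R - fr a x) / Real.sqrt (1 - x / R) : ℝ) : ℂ)) (𝓝[<] R)
      (𝓝 (-(deriv h 0))) := by
    refine (h4.neg).congr' ?_
    filter_upwards [H.eq, ev_Ioo H.pos] with x hx hx'
    simp only [Function.comp_apply, slope_def_field]
    rw [← hx, ← H.val]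
    push_cast
    rw [sub_zero, ← neg_div]
    congr 1
    ring
  have h6 := (Complex.continuous_re.tendsto _).comp h5
  simpa [Function.comp_def] using h6

theorem Sg.deriv_im (H : Sg R a h) : (deriv h 0).im = 0 := by
  have h1 : HasDerivAt h (deriv h 0) 0 := H.an.differentiableAt.hasDerivAt
  have h2 := hasDerivAt_iff_tendsto_slope.1 h1
  have h3 : Tendsto (fun x : ℝ => ((Real.sqrt (1 - x / R) : ℝ) : ℂ)) (𝓝[<] R) (𝓝[≠] 0) := by
    refine tendsto_nhdsWithin_iff.2 ⟨tendsto_sqrt' H.pos, ?_⟩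
    filter_upwards [ev_Ioo H.pos] with x hx
    have := sqrt_pos H.pos hx.2
    simpa using this.ne'
  have h4 := h2.comp h3
  have h5 : Tendsto (fun x : ℝ => (((fr a x - fr a R) / Real.sqrt (1 - x / R) : ℝ) : ℂ)) (𝓝[<] R)
      (𝓝 (deriv h 0)) := by
    refine h4.congr' ?_
    filter_upwards [H.eq, ev_Ioo H.pos] with x hx hx'
    simp only [Function.comp_apply, slope_def_field]
    rw [← hx, ← H.val]
    push_cast
    rw [sub_zero]
  have h6 := (Complex.continuous_im.tendsto _).comp h5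
  have h7 : Tendsto (fun _ : ℝ => (0 : ℝ)) (𝓝[<] R) (𝓝 (deriv h 0).im) := by
    refine h6.congr (fun x => ?_)
    simp only [Function.comp_apply, Complex.ofReal_im]
  exact tendsto_nhds_unique h7 tendsto_const_nhds

theorem HSegAux.pow_sub_le {x R : ℝ} (hx : 0 ≤ x) (hxR : x ≤ R) (n : ℕ) :
    R ^ n - x ^ n ≤ n * R ^ (n - 1) * (R - x) := by
  induction n with
  | zero => simp
  | succ n ih =>
    have h1 : R ^ (n + 1) - x ^ (n + 1) = R * (R ^ n - x ^ n) + x ^ n * (R - x) := by ring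
    have hR : 0 ≤ R := hx.trans hxR
    have h2 : x ^ n ≤ R ^ n := pow_le_pow_left₀ hx hxR n
    have h3 : R * (R ^ n - x ^ n) ≤ R * (n * R ^ (n - 1) * (R - x)) :=
      mul_le_mul_of_nonneg_left ih hR
    have h4 : x ^ n * (R - x) ≤ R ^ n * (R - x) := mul_le_mul_of_nonneg_right h2 (by linarith)
    have h5 : R * (n * R ^ (n - 1) * (R - x)) = n * R ^ n * (R - x) := by
      rcases n with _ | n
      · simp
      · rw [Nat.add_sub_cancel]
        ring
    rw [h1, Nat.add_sub_cancel]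
    push_cast
    nlinarith

theorem Sg.deriv_zero (H : Sg R a h) (hs : Summable (fun n : ℕ => (n : ℝ) * a n * R ^ n)) :
    deriv h 0 = 0 := by
  have hR := H.pos
  set M : ℝ := ∑' n : ℕ, (n : ℝ) * a n * R ^ n with hM
  have h1 : ∀ᶠ x in 𝓝[<] R, (fr a R - fr a x) / Real.sqrt (1 - x / R) ≤
      M * Real.sqrt (1 - x / R) := by
    filter_upwards [ev_Ioo hR] with x hx
    have hv := sqrt_pos hR hx.2
    rw [div_le_iff₀ hv]
    have h2 : fr a R - fr a x = ∑' n : ℕ, a n * (R ^ n - x ^ n) := by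
      unfold fr
      rw [← H.sum_R.tsum_sub (H.sum x hx.1.le hx.2)]
      exact tsum_congr (fun n => by ring)
    have h3 : ∀ n : ℕ, a n * (R ^ n - x ^ n) ≤ (n : ℝ) * a n * R ^ n * ((R - x) / R) := by
      intro n
      have h4 := pow_sub_le hx.1.le hx.2.le n
      have h5 : (n : ℝ) * a n * R ^ n * ((R - x) / R) = a n * (n * R ^ (n - 1) * (R - x)) := by
        rcases n with _ | n
        · simp
        · rw [Nat.add_sub_cancel, pow_succ]
          field_simp
      rw [h5]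
      exact mul_le_mul_of_nonneg_left h4 (H.nonneg n)
    have h6 : Summable (fun n : ℕ => a n * (R ^ n - x ^ n)) := by
      have := H.sum_R.sub (H.sum x hx.1.le hx.2)
      refine this.congr (fun n => by ring)
    have h7 := h6.tsum_le_tsum h3 (hs.mul_right _)
    rw [tsum_mul_right, ← h2, ← hM] at h7
    have h8 : (R - x) / R = Real.sqrt (1 - x / R) * Real.sqrt (1 - x / R) := by
      have h9 := sqrt_sq' hR hx.2
      rw [← h9]
      field_simp
    rw [h8, ← mul_assoc] at h7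
    exact h7
  have h2 : ∀ᶠ x in 𝓝[<] R, 0 ≤ (fr a R - fr a x) / Real.sqrt (1 - x / R) := by
    filter_upwards [ev_Ioo hR] with x hx
    refine div_nonneg ?_ (Real.sqrt_nonneg _)
    have := fr_mono H.nonneg H.sum_R hx.1.le hx.2.le le_rfl
    linarith
  have h3 : Tendsto (fun x : ℝ => M * Real.sqrt (1 - x / R)) (𝓝[<] R) (𝓝 0) := by
    have := ((tendsto_sqrt hR).mono_right nhdsWithin_le_nhds).const_mul M
    simpa using this
  have h4 : Tendsto (fun x : ℝ => ((fr a R - fr a x) / Real.sqrt (1 - x / R) : ℝ)) (𝓝[<] R)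
      (𝓝 0) := tendsto_of_tendsto_of_tendsto_of_le_of_le' tendsto_const_nhds h3 h2 h1
  have h5 := tendsto_nhds_unique h4 H.slope
  refine Complex.ext ?_ H.deriv_im
  rw [Complex.neg_re] at h5
  rw [Complex.zero_re]
  linarith

/-- Near `0`: `h v = h 0 + v^2 d v` with `d` analytic, if `h' (0) = 0`. -/
theorem HSegAux.an_dslope {f : ℂ → ℂ} (hf : AnalyticAt ℂ f 0) : AnalyticAt ℂ (dslope f 0) 0 := by
  obtain ⟨p, hp⟩ := hf
  exact ⟨_, hp.has_fpower_series_dslope_fslope⟩

/-- The second divided difference at `0`. -/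
noncomputable def d2 (h : ℂ → ℂ) : ℂ → ℂ := dslope (dslope h 0) 0

theorem d2_an (hh : AnalyticAt ℂ h 0) : AnalyticAt ℂ (d2 h) 0 := an_dslope (an_dslope hh)

theorem d2_eq (hd : deriv h 0 = 0) (v : ℂ) : h v = h 0 + v ^ 2 * d2 h v := by
  have h1 := sub_smul_dslope h 0 v
  have h2 := sub_smul_dslope (dslope h 0) 0 v
  rw [dslope_same, hd, sub_zero, smul_eq_mul, sub_zero] at h2
  rw [sub_zero, smul_eq_mul] at h1
  unfold d2
  rw [← h2] at h1
  linear_combination -h1

theorem Sg.sum_deriv (H : Sg R a h) (hd : deriv h 0 = 0) :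
    Summable (fun n : ℕ => (n : ℝ) * a n * R ^ n) := by
  have hR := H.pos
  -- `(f R - f x) / (R - x)` is bounded
  have hb : ∃ M : ℝ, ∀ᶠ v in 𝓝 (0 : ℂ), ‖d2 h v‖ ≤ M := by
    refine ⟨‖d2 h 0‖ + 1, ?_⟩
    exact (d2_an H.an).continuousAt.norm.eventually (eventually_le_nhds (lt_add_one _))
  obtain ⟨M, hM⟩ := hb
  have h1 : ∀ᶠ x in 𝓝[<] R, (fr a R - fr a x) / (R - x) ≤ M / R := by
    filter_upwards [H.eq, (tendsto_sqrt' hR).eventually hM, ev_Ioo hR] with x hx hx1 hx2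
    have hv := sqrt_pos hR hx2.2
    have h2 : ((fr a R - fr a x : ℝ) : ℂ) = -(((Real.sqrt (1 - x / R) : ℝ) : ℂ) ^ 2 *
        d2 h ((Real.sqrt (1 - x / R) : ℝ) : ℂ)) := by
      push_cast
      rw [hx, H.val]
      have := d2_eq hd ((Real.sqrt (1 - x / R) : ℝ) : ℂ)
      linear_combination -this
    have h3 : |fr a R - fr a x| ≤ Real.sqrt (1 - x / R) ^ 2 * M := by
      rw [← Real.norm_eq_abs, ← Complex.norm_real, h2, norm_neg, norm_mul, norm_pow,
        Complex.norm_real, Real.norm_eq_abs, abs_of_pos hv]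
      exact mul_le_mul_of_nonneg_left hx1 (sq_nonneg _)
    have h4 := sqrt_sq' hR hx2.2
    rw [div_le_div_iff₀ (by linarith) hR]
    have h5 := le_trans (le_abs_self _) h3
    calc (fr a R - fr a x) * R ≤ (Real.sqrt (1 - x / R) ^ 2 * M) * R :=
          mul_le_mul_of_nonneg_right h5 hR.le
      _ = M * (R * Real.sqrt (1 - x / R) ^ 2) := by ring
      _ = M * (R - x) := by rw [h4]
  have h6 : Summable (fun n : ℕ => a n * ((n : ℝ) * R ^ (n - 1))) := by
    refine summable_of_bdd (R := R) (c := fun n x => a n * ((R ^ n - x ^ n) / (R - x)))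
      (M := M / R) (fun n => mul_nonneg (H.nonneg n)
        (mul_nonneg (Nat.cast_nonneg n) (pow_nonneg hR.le _))) (fun n => ?_) (fun N => ?_)
    · refine Tendsto.const_mul _ ?_
      have h7 : HasDerivAt (fun x : ℝ => x ^ n) ((n : ℝ) * R ^ (n - 1)) R := hasDerivAt_pow n R
      have h8 := hasDerivAt_iff_tendsto_slope.1 h7
      have h9 : Tendsto (_root_.slope (fun x : ℝ => x ^ n) R) (𝓝[<] R) (𝓝 ((n : ℝ) * R ^ (n - 1))) :=
        h8.mono_left (nhdsWithin_mono _ (fun x hx => ne_of_lt hx))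
      refine h9.congr (fun x => ?_)
      rw [slope_def_field, ← neg_sub, ← neg_sub (R : ℝ) x, neg_div_neg_eq]
    · filter_upwards [h1, ev_Ioo hR] with x hx hx'
      refine le_trans ?_ hx
      have h10 : fr a R - fr a x = ∑' n : ℕ, a n * (R ^ n - x ^ n) := by
        unfold fr
        rw [← H.sum_R.tsum_sub (H.sum x hx'.1.le hx'.2)]
        exact tsum_congr (fun n => by ring)
      have h11 : Summable (fun n : ℕ => a n * (R ^ n - x ^ n)) := by
        have := H.sum_R.sub (H.sum x hx'.1.le hx'.2)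
        refine this.congr (fun n => by ring)
      have h12 : ∑ n ∈ Finset.range N, a n * ((R ^ n - x ^ n) / (R - x)) =
          (∑ n ∈ Finset.range N, a n * (R ^ n - x ^ n)) / (R - x) := by
        rw [Finset.sum_div]
        exact Finset.sum_congr rfl (fun n _ => by ring)
      rw [h12, h10]
      have h13 : 0 < R - x := by linarith [hx'.2]
      refine div_le_div_of_nonneg_right ?_ h13.le
      exact h11.sum_le_tsum _ (fun n _ => mul_nonneg (H.nonneg n)
        (sub_nonneg.2 (pow_le_pow_left₀ hx'.1.le hx'.2.le n)))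
  refine (h6.mul_right R).congr (fun n => ?_)
  rcases n with _ | n
  · simp
  · rw [Nat.add_sub_cancel, pow_succ]
    ring

/-! ### The derivative -/

/-- The coefficients of the derivative. -/
def dS (a : ℕ → ℝ) (n : ℕ) : ℝ := ((n : ℝ) + 1) * a (n + 1)

theorem HSegAux.dS_sum_iff {X : ℝ} (hX : 0 < X) :
    Summable (fun n : ℕ => dS a n * X ^ n) ↔ Summable (fun n : ℕ => (n : ℝ) * a n * X ^ n) := by
  rw [← summable_nat_add_iff 1 (f := fun n : ℕ => (n : ℝ) * a n * X ^ n)]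
  constructor
  · intro hs
    refine (hs.mul_right X).congr (fun n => ?_)
    unfold dS
    push_cast
    ring
  · intro hs
    refine (hs.mul_right X⁻¹).congr (fun n => ?_)
    unfold dS
    push_cast
    rw [pow_succ]
    field_simp

theorem HSegAux.hasDerivAt_fr (H : Sg R a h) {x : ℝ} (hx : 0 < x) (hxR : x < R) :
    HasDerivAt (fr a) (fr (dS a) x) x := by
  obtain ⟨X, hX1, hX2⟩ := exists_between hxR
  have hX0 : 0 < X := hx.trans hX1
  have hs := H.sum X hX0.le hX2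
  have hb : ∀ (n : ℕ) (w : ℂ), w ∈ ball (0 : ℂ) X → ‖(a n : ℂ) * w ^ n‖ ≤ a n * X ^ n := by
    intro n w hw
    rw [mem_ball_zero_iff] at hw
    rw [norm_mul, norm_pow, Complex.norm_real, Real.norm_eq_abs, abs_of_nonneg (H.nonneg n)]
    exact mul_le_mul_of_nonneg_left (pow_le_pow_left₀ (norm_nonneg _) hw.le n) (H.nonneg n)
  have hxb : (x : ℂ) ∈ ball (0 : ℂ) X := by
    rw [mem_ball_zero_iff, Complex.norm_real, Real.norm_eq_abs, abs_of_pos hx]
    exact hX1
  have h1 : HasSum (fun n : ℕ => deriv (fun w : ℂ => (a n : ℂ) * w ^ n) (x : ℂ))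
      (deriv (fn a) (x : ℂ)) :=
    Complex.hasSum_deriv_of_summable_norm (F := fun (n : ℕ) (w : ℂ) => (a n : ℂ) * w ^ n)
      hs (fun n => ((differentiable_id.pow n).const_mul _).differentiableOn) isOpen_ball hb hxb
  have h2 : ∀ n : ℕ, deriv (fun w : ℂ => (a n : ℂ) * w ^ n) (x : ℂ) =
      ((a n * (n * x ^ (n - 1)) : ℝ) : ℂ) := by
    intro n
    have h3 : HasDerivAt (fun w : ℂ => (a n : ℂ) * w ^ n)
        ((a n : ℂ) * ((n : ℂ) * (x : ℂ) ^ (n - 1))) (x : ℂ) :=
      (hasDerivAt_pow n (x : ℂ)).const_mul _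
    rw [h3.deriv]
    push_cast
    rfl
  have h3 : deriv (fn a) (x : ℂ) = (fr (dS a) x : ℂ) := by
    rw [← h1.tsum_eq]
    simp only [h2]
    rw [← Complex.ofReal_tsum]
    congr 1
    have h4 : Summable (fun n : ℕ => a n * (n * x ^ (n - 1))) := by
      have h5 := summable_deriv H.nonneg hs hx.le hX1
      refine (h5.mul_right x⁻¹).congr (fun n => ?_)
      rcases n with _ | n
      · simp
      · rw [Nat.add_sub_cancel, pow_succ]
        field_simp
    rw [h4.tsum_eq_zero_add]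
    simp only [Nat.cast_zero, zero_mul, mul_zero, zero_add]
    unfold fr
    refine tsum_congr (fun n => ?_)
    unfold dS
    rw [Nat.add_sub_cancel]
    push_cast
    ring
  have h4 : HasDerivAt (fn a) (fr (dS a) x : ℂ) (x : ℂ) := by
    rw [← h3]
    refine (H.an_ball ?_).differentiableAt.hasDerivAt
    rw [Complex.norm_real, Real.norm_eq_abs, abs_of_pos hx]
    exact hxR
  have h5 := h4.real_of_complex
  simp only [Complex.ofReal_re] at h5
  refine h5.congr_of_eventuallyEq ?_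
  filter_upwards with y
  rw [fn_ofReal, Complex.ofReal_re]

/-- The function of the derivative: `-h'(v) / (2 R v) = -(2 d(v) + v d'(v)) / (2 R)`. -/
noncomputable def st (R : ℝ) (h : ℂ → ℂ) (v : ℂ) : ℂ :=
  -(2 * d2 h v + v * deriv (d2 h) v) / (2 * R)

theorem st_an (hh : AnalyticAt ℂ h 0) : AnalyticAt ℂ (st R h) 0 := by
  have h1 := d2_an hh
  have h2 := h1.deriv
  unfold st
  have h3 : AnalyticAt ℂ (fun v : ℂ => -(2 * d2 h v + v * deriv (d2 h) v)) 0 :=
    ((analyticAt_const.mul h1).add (analyticAt_id.mul h2)).neg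
  exact h3.div_const

theorem st_zero (R : ℝ) (h : ℂ → ℂ) : st R h 0 = -(d2 h 0) / R := by
  unfold st
  rcases eq_or_ne (R : ℂ) 0 with h0 | h0
  · simp [h0]
  · field_simp
    ring

theorem st_deriv (hh : AnalyticAt ℂ h 0) :
    deriv (st R h) 0 = -(3 * deriv (d2 h) 0) / (2 * R) := by
  have h1 := d2_an hh
  have h2 := h1.deriv
  have e1 : HasDerivAt (d2 h) (deriv (d2 h) 0) 0 := h1.differentiableAt.hasDerivAt
  have e2 : HasDerivAt (deriv (d2 h)) (deriv (deriv (d2 h)) 0) 0 :=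
    h2.differentiableAt.hasDerivAt
  have e3 : HasDerivAt (fun v : ℂ => -(2 * d2 h v + v * deriv (d2 h) v) / (2 * (R : ℂ)))
      (-(2 * deriv (d2 h) 0 + (1 * deriv (d2 h) 0 + 0 * deriv (deriv (d2 h)) 0)) / (2 * (R : ℂ)))
      0 := (((e1.const_mul 2).add ((hasDerivAt_id (0 : ℂ)).mul e2)).neg).div_const _
  have e4 : deriv (st R h) 0 = _ := e3.deriv
  rw [e4]
  ring

theorem Sg.step (H : Sg R a h) (hd : deriv h 0 = 0) : Sg R (dS a) (st R h) := by
  have hR := H.pos
  refine ⟨hR, fun n => mul_nonneg (by positivity) (H.nonneg _), fun x hx hxR => ?_, st_an H.an, ?_⟩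
  · obtain ⟨X, hX1, hX2⟩ := exists_between hxR
    have hX0 : 0 < X := hx.trans_lt hX1
    obtain ⟨Y, hY1, hY2⟩ := exists_between hX2
    have h1 := summable_deriv H.nonneg (H.sum Y (hX0.le.trans hY1.le) hY2) hX0.le hY1
    have h2 := (dS_sum_iff hX0).2 h1
    exact summable_fr (fun n => mul_nonneg (by positivity) (H.nonneg _)) h2 hx hX1.le
  · -- the derivative on the segment
    obtain ⟨x1, hx1, hx1e⟩ := (mem_nhdsLT_iff_exists_Ioo_subset' (show (0 : ℝ) < R from hR)).1 H.eq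
    have hd2 : ∀ᶠ v in 𝓝 (0 : ℂ), AnalyticAt ℂ (d2 h) v := (d2_an H.an).eventually_analyticAt
    have hI : ∀ᶠ x in 𝓝[<] R, x ∈ Set.Ioo (max x1 0) R :=
      Ioo_mem_nhdsLT (max_lt hx1 hR)
    filter_upwards [hI, (tendsto_sqrt' hR).eventually hd2] with x hx hx2
    have hx0 : 0 < x := (le_max_right _ _).trans_lt hx.1
    have hxx : x1 < x := (le_max_left _ _).trans_lt hx.1
    have hv := sqrt_pos hR hx.2
    set v : ℝ := Real.sqrt (1 - x / R) with hvd
    have h1 := (hasDerivAt_fr H hx0 hx.2).ofReal_comp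
    have h2 : HasDerivAt (fun y : ℝ => Real.sqrt (1 - y / R)) (-(1 / R) / (2 * v)) x := by
      have h3 : HasDerivAt (fun y : ℝ => 1 - y / R) (-(1 / R)) x := by
        have := ((hasDerivAt_id x).div_const R).const_sub 1
        simpa using this
      exact h3.sqrt (by
        have := Real.sqrt_pos.1 hv
        exact this.ne')
    have h3 : HasDerivAt (fun w : ℂ => h 0 + w ^ 2 * d2 h w)
        (2 * (v : ℂ) * d2 h v + (v : ℂ) ^ 2 * deriv (d2 h) v) (v : ℂ) := by
      have e1 : HasDerivAt (d2 h) (deriv (d2 h) v) (v : ℂ) := hx2.differentiableAt.hasDerivAt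
      have e2 := ((hasDerivAt_pow 2 (v : ℂ)).mul e1).const_add (h 0)
      refine e2.congr_deriv ?_
      push_cast
      ring
    have h4 : HasDerivAt (fun y : ℝ => h 0 + ((Real.sqrt (1 - y / R) : ℝ) : ℂ) ^ 2 *
        d2 h ((Real.sqrt (1 - y / R) : ℝ) : ℂ))
        ((2 * (v : ℂ) * d2 h v + (v : ℂ) ^ 2 * deriv (d2 h) v) * ((-(1 / R) / (2 * v) : ℝ) : ℂ))
        x := by
      have e1 := h2.ofReal_comp
      exact HasDerivAt.comp x (h₂ := fun w : ℂ => h 0 + w ^ 2 * d2 h w)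
        (h := fun y : ℝ => ((Real.sqrt (1 - y / R) : ℝ) : ℂ)) h3 e1
    have h5 : (fun y : ℝ => (fr a y : ℂ)) =ᶠ[𝓝 x] (fun y : ℝ =>
        h 0 + ((Real.sqrt (1 - y / R) : ℝ) : ℂ) ^ 2 * d2 h ((Real.sqrt (1 - y / R) : ℝ) : ℂ)) := by
      filter_upwards [Ioo_mem_nhds hxx hx.2] with y hy
      rw [← d2_eq hd]
      exact hx1e hy
    have h6 := (h4.congr_of_eventuallyEq h5).unique h1
    rw [← h6]
    unfold st
    have hvc : (v : ℂ) ≠ 0 := by exact_mod_cast hv.ne'
    have hRc : (R : ℂ) ≠ 0 := by exact_mod_cast hR.ne'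
    push_cast
    field_simp

end K5F
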