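import Pool.Agent.Lib.K5F.HMain
import Pool.Agent.Lib.K5.BQ

/-!
# K5F.Kap: `R B''(R) < 1`

`D n`: coefficients of the series of the networks, `β n`: coefficients of the derivative of the series of the blocks.
`bQ`: `β (n + 1) ≤ D n / 4` for `n ≥ 1` (a block with at least three vertices has at least as many edges as vertices).
`sum_beta_le`: `∑ n β n R^n ≤ R + R/4 (D(R) - 1 + ∑ n D n R^n)`.
`sum_D_eq`: `∑ n D n R^n = - z2` for the local form `ζ v = z0 + z2 v^2 + ...`.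
`sum_D_le`: `∑ n D n R^n ≤ c R` from `D(R) - D(x) ≤ c (R - x)` for `x < R` near `R`.
`kap_of`, `kap_slope`: the condition `kap` of K5T.
-/

set_option autoImplicit false

namespace K5F

open Filter Topology Metric K5T HSegAux HMainAux

variable {R : ℝ} {D β : ℕ → ℝ} {ζ : ℂ → ℂ} {z0 z2 z3 : ℂ}

/-- The coefficient inequality for the blocks. -/
theorem bQ {n : ℕ} (hn : 1 ≤ n) :
    (K5.bC (n + 1) : ℝ) / (n + 1).factorial ≤ (2 * (K5.Q n : ℝ) / n.factorial) / 4 := by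
  have h1 : (2 * (K5.bC (n + 1) : ℝ)) ≤ ((n : ℝ) + 1) * (K5.Q n : ℝ) := by
    have := K5.bC_le hn
    exact_mod_cast this
  have h2 : (0 : ℝ) < n.factorial := by positivity
  have h3 : ((n + 1).factorial : ℝ) = ((n : ℝ) + 1) * n.factorial := by
    rw [Nat.factorial_succ]
    push_cast
    ring
  have h4 : (0 : ℝ) < (n : ℝ) + 1 := by positivity
  rw [h3, div_le_div_iff₀ (by positivity) (by norm_num), div_mul_eq_mul_div, le_div_iff₀ h2]
  nlinarith [mul_le_mul_of_nonneg_right h1 h2.le]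

/-- `∑ n β n R^n` is at most `R + R/4 (D(R) - D 0 + ∑ n D n R^n)`. -/
theorem sum_beta_le (hR : 0 ≤ R) (hD0 : ∀ n, 0 ≤ D n) (hs : Summable (fun n : ℕ => D n * R ^ n))
    (hs1 : Summable (fun n : ℕ => (n : ℝ) * D n * R ^ n)) (hβ : ∀ n, 0 ≤ β n) (hβ1 : β 1 ≤ 1)
    (h4 : ∀ n, 1 ≤ n → β (n + 1) ≤ D n / 4) :
    ∑' n : ℕ, (n : ℝ) * β n * R ^ n ≤
      R + R / 4 * (fr D R - D 0 + ∑' n : ℕ, (n : ℝ) * D n * R ^ n) := by
  -- the shifted series
  have e1 := (summable_nat_add_iff 1 (f := fun n : ℕ => D n * R ^ n)).2 hs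
  have e2 := (summable_nat_add_iff 1 (f := fun n : ℕ => (n : ℝ) * D n * R ^ n)).2 hs1
  have e3 := (e1.add e2).mul_left (R / 4)
  have hle : ∀ n : ℕ, ((n + 2 : ℕ) : ℝ) * β (n + 2) * R ^ (n + 2) ≤
      R / 4 * (D (n + 1) * R ^ (n + 1) + ((n + 1 : ℕ) : ℝ) * D (n + 1) * R ^ (n + 1)) := by
    intro n
    have e4 := h4 (n + 1) (by omega)
    have e5 : ((n + 2 : ℕ) : ℝ) * β (n + 2) ≤ ((n + 2 : ℕ) : ℝ) * (D (n + 1) / 4) :=
      mul_le_mul_of_nonneg_left e4 (Nat.cast_nonneg _)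
    have e6 := mul_le_mul_of_nonneg_right e5 (pow_nonneg hR (n + 2))
    refine e6.trans (le_of_eq ?_)
    push_cast
    ring
  have hnn : ∀ n : ℕ, 0 ≤ ((n + 2 : ℕ) : ℝ) * β (n + 2) * R ^ (n + 2) := fun n =>
    mul_nonneg (mul_nonneg (Nat.cast_nonneg _) (hβ _)) (pow_nonneg hR _)
  have e7 : Summable (fun n : ℕ => ((n + 2 : ℕ) : ℝ) * β (n + 2) * R ^ (n + 2)) :=
    Summable.of_nonneg_of_le hnn hle e3
  have e8 : Summable (fun n : ℕ => (n : ℝ) * β n * R ^ n) := (summable_nat_add_iff 2).1 e7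
  have e9 : ∑' n : ℕ, (n : ℝ) * β n * R ^ n =
      β 1 * R + ∑' n : ℕ, ((n + 2 : ℕ) : ℝ) * β (n + 2) * R ^ (n + 2) := by
    rw [← e8.sum_add_tsum_nat_add 2]
    simp [Finset.sum_range_succ]
  have e10 : fr D R = D 0 + ∑' n : ℕ, D (n + 1) * R ^ (n + 1) := by
    unfold fr
    rw [hs.tsum_eq_zero_add]
    simp
  have e11 : ∑' n : ℕ, (n : ℝ) * D n * R ^ n =
      ∑' n : ℕ, ((n + 1 : ℕ) : ℝ) * D (n + 1) * R ^ (n + 1) := by
    rw [hs1.tsum_eq_zero_add]
    simp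
  have e12 := e7.tsum_le_tsum hle e3
  rw [tsum_mul_left, e1.tsum_add e2] at e12
  rw [e9, e10, e11]
  have e13 : β 1 * R ≤ R := by nlinarith
  have e14 : D 0 + ∑' n : ℕ, D (n + 1) * R ^ (n + 1) - D 0 = ∑' n : ℕ, D (n + 1) * R ^ (n + 1) := by
    ring
  rw [e14]
  linarith

/-- The sum `∑ n D n R^n` from the local form. -/
theorem sum_D_eq (hD : Sg R D ζ) (hζ : T3 ζ z0 z2 z3) :
    ∑' n : ℕ, (n : ℝ) * D n * R ^ n = -z2.re := by
  have hR := hD.pos
  have hRc : (R : ℂ) ≠ 0 := by exact_mod_cast hR.ne'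
  have hd := T3_deriv hζ
  have hs := hD.sum_deriv hd
  have hst := hD.step hd
  have hv2 := hst.val
  rw [st_zero] at hv2
  have ha2 : d2 ζ 0 = ((-(R * fr (dS D) R) : ℝ) : ℂ) := by
    push_cast
    rw [hv2]
    field_simp
  have hsum2 : R * fr (dS D) R = ∑' n : ℕ, (n : ℝ) * D n * R ^ n := by
    rw [hs.tsum_eq_zero_add]
    unfold fr dS
    rw [← tsum_mul_left]
    simp only [Nat.cast_zero, zero_mul, zero_add]
    refine tsum_congr (fun n => ?_)
    push_cast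
    ring
  rw [← hsum2, (T3_unique hζ).1, ha2, Complex.ofReal_re]
  ring

/-- The sum `∑ n D n R^n` from a bound for the slope at `R`. -/
theorem sum_D_le {c : ℝ} (hR : 0 < R) (hD0 : ∀ n, 0 ≤ D n)
    (hs : Summable (fun n : ℕ => D n * R ^ n))
    (hc : ∀ᶠ x in 𝓝[<] R, fr D R - fr D x ≤ c * (R - x)) :
    Summable (fun n : ℕ => (n : ℝ) * D n * R ^ n) ∧ ∑' n : ℕ, (n : ℝ) * D n * R ^ n ≤ c * R := by
  have hnn : ∀ n : ℕ, 0 ≤ (n : ℝ) * D n * R ^ n := fun n =>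
    mul_nonneg (mul_nonneg (Nat.cast_nonneg _) (hD0 _)) (pow_nonneg hR.le _)
  have key : ∀ N : ℕ, ∑ n ∈ Finset.range N, (n : ℝ) * D n * R ^ n ≤ c * R := by
    intro N
    -- the slopes of the powers
    have h1 : ∀ n : ℕ, Tendsto (fun x : ℝ => (R ^ n - x ^ n) / (R - x)) (𝓝[<] R)
        (𝓝 ((n : ℝ) * R ^ (n - 1))) := by
      intro n
      have h2 : HasDerivAt (fun x : ℝ => x ^ n) ((n : ℝ) * R ^ (n - 1)) R := hasDerivAt_pow n R
      have h3 := hasDerivAt_iff_tendsto_slope.1 h2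
      have h4 : 𝓝[<] R ≤ 𝓝[≠] R := nhdsWithin_mono _ (fun x hx => ne_of_lt hx)
      refine (h3.mono_left h4).congr' ?_
      filter_upwards [self_mem_nhdsWithin] with x hx
      rw [slope_def_field]
      have h5 : x - R ≠ 0 := sub_ne_zero.2 (ne_of_lt hx)
      have h6 : R - x ≠ 0 := sub_ne_zero.2 (ne_of_gt hx)
      rw [div_eq_div_iff h5 h6]
      ring
    have h2 : Tendsto (fun x : ℝ => ∑ n ∈ Finset.range N, D n * ((R ^ n - x ^ n) / (R - x)))
        (𝓝[<] R) (𝓝 (∑ n ∈ Finset.range N, D n * ((n : ℝ) * R ^ (n - 1)))) :=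
      tendsto_finsetSum _ (fun n _ => (h1 n).const_mul _)
    have h3 : ∑ n ∈ Finset.range N, D n * ((n : ℝ) * R ^ (n - 1)) ≤ c := by
      refine le_of_tendsto h2 ?_
      have hpos : ∀ᶠ x in 𝓝[<] R, 0 < x ∧ x < R := ev_Ioo hR
      filter_upwards [hc, hpos] with x hx hx'
      have h5 : 0 < R - x := by linarith [hx'.2]
      have hsx : Summable (fun n : ℕ => D n * x ^ n) := by
        refine Summable.of_nonneg_of_le (fun n => mul_nonneg (hD0 n) (pow_nonneg hx'.1.le n))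
          (fun n => ?_) hs
        exact mul_le_mul_of_nonneg_left (pow_le_pow_left₀ hx'.1.le hx'.2.le n) (hD0 n)
      have h6 : fr D R - fr D x = ∑' n : ℕ, (D n * R ^ n - D n * x ^ n) :=
        (hs.tsum_sub hsx).symm
      have h7 : ∑ n ∈ Finset.range N, (D n * R ^ n - D n * x ^ n) ≤ fr D R - fr D x := by
        rw [h6]
        refine (hs.sub hsx).sum_le_tsum _ (fun n _ => ?_)
        exact sub_nonneg.2 (mul_le_mul_of_nonneg_left
          (pow_le_pow_left₀ hx'.1.le hx'.2.le n) (hD0 n))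
      have h8 : ∑ n ∈ Finset.range N, D n * ((R ^ n - x ^ n) / (R - x)) =
          (∑ n ∈ Finset.range N, (D n * R ^ n - D n * x ^ n)) / (R - x) := by
        rw [Finset.sum_div]
        refine Finset.sum_congr rfl (fun n _ => ?_)
        ring
      rw [h8, div_le_iff₀ h5]
      exact h7.trans hx
    have h4 : ∑ n ∈ Finset.range N, (n : ℝ) * D n * R ^ n =
        (∑ n ∈ Finset.range N, D n * ((n : ℝ) * R ^ (n - 1))) * R := by
      rw [Finset.sum_mul]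
      refine Finset.sum_congr rfl (fun n _ => ?_)
      rcases n with _ | n
      · simp
      · rw [Nat.add_sub_cancel, pow_succ]
        ring
    rw [h4]
    exact mul_le_mul_of_nonneg_right h3 hR.le
  exact ⟨summable_of_sum_range_le hnn key, Real.tsum_le_of_sum_range_le hnn key⟩

/-- The condition `kap` from the local form of the networks. -/
theorem kap_of (hD : Sg R D ζ) (hζ : T3 ζ z0 z2 z3) (hβ : ∀ n, 0 ≤ β n) (hβ1 : β 1 ≤ 1)
    (h4 : ∀ n, 1 ≤ n → β (n + 1) ≤ D n / 4)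
    (hnum : R + R / 4 * (fr D R - D 0 - z2.re) < 1) :
    ∑' n : ℕ, (n : ℝ) * β n * R ^ n < 1 := by
  have h1 := sum_beta_le hD.pos.le hD.nonneg hD.sum_R (hD.sum_deriv (T3_deriv hζ)) hβ hβ1 h4
  rw [sum_D_eq hD hζ] at h1
  refine h1.trans_lt ?_
  have e : fr D R - D 0 + -z2.re = fr D R - D 0 - z2.re := by ring
  rw [e]
  exact hnum

/-- The condition `kap` from a bound for the slope at `R`. -/
theorem kap_slope {c : ℝ} (hR : 0 < R) (hD0 : ∀ n, 0 ≤ D n)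
    (hs : Summable (fun n : ℕ => D n * R ^ n))
    (hc : ∀ᶠ x in 𝓝[<] R, fr D R - fr D x ≤ c * (R - x)) (hβ : ∀ n, 0 ≤ β n) (hβ1 : β 1 ≤ 1)
    (h4 : ∀ n, 1 ≤ n → β (n + 1) ≤ D n / 4)
    (hnum : R + R / 4 * (fr D R - D 0 + c * R) < 1) :
    ∑' n : ℕ, (n : ℝ) * β n * R ^ n < 1 := by
  obtain ⟨h1, h2⟩ := sum_D_le hR hD0 hs hc
  have h3 := sum_beta_le hR.le hD0 hs h1 hβ hβ1 h4
  refine h3.trans_lt (lt_of_le_of_lt ?_ hnum)
  have h5 : R / 4 * (fr D R - D 0 + ∑' n : ℕ, (n : ℝ) * D n * R ^ n) ≤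
      R / 4 * (fr D R - D 0 + c * R) :=
    mul_le_mul_of_nonneg_left (by linarith) (by positivity)
  linarith

end K5F
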